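import Mathlib

/-! From functions to sets (helper20). -/

set_option autoImplicit false

namespace Pool.Agent.X20.MF
open Finset

/-- the indicator of a level set is an average of the twists by characters -/
lemma indicator_eq {G : Type} [AddCommGroup G] [Fintype G] [DecidableEq G] (x a : G) :
    (if x = a then (1 : ℂ) else 0) = (1 / (Fintype.card G : ℂ)) * ∑ ψ : AddChar G ℂ, ψ (-a) * ψ x := by
  have h1 : ∑ ψ : AddChar G ℂ, ψ (-a) * ψ x = ∑ ψ : AddChar G ℂ, ψ (x - a) := by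
    apply sum_congr rfl
    intro ψ _
    rw [← AddChar.map_add_eq_mul]
    congr 1
    abel
  rw [h1, AddChar.sum_apply_eq_ite]
  have hc : (Fintype.card G : ℂ) ≠ 0 := by exact_mod_cast Fintype.card_ne_zero
  by_cases h : x = a
  · rw [if_pos h, if_pos (sub_eq_zero.mpr h)]
    field_simp
  · rw [if_neg h, if_neg (fun h' => h (sub_eq_zero.mp h'))]
    simp

lemma level_bound {G : Type} [AddCommGroup G] [Fintype G] [DecidableEq G] (I : Finset ℕ) (R : ℕ → ℝ) (B : ℝ)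
    (e : ℕ → ℂ) (κ : ℕ → G) (a : G)
    (h : ∀ ψ : AddChar G ℂ, ‖∑ n ∈ I, (e n * ψ (κ n)) * (R n : ℂ)‖ ≤ B) :
    ‖∑ n ∈ I, (e n * (if κ n = a then 1 else 0)) * (R n : ℂ)‖ ≤ B := by
  have hc0 : 0 < Fintype.card G := Fintype.card_pos
  have hcard : Fintype.card (AddChar G ℂ) = Fintype.card G := by
    have := AddChar.card_eq (α := G)
    exact this
  have h1 : ∑ n ∈ I, (e n * (if κ n = a then 1 else 0)) * (R n : ℂ) =
      (1 / (Fintype.card G : ℂ)) * ∑ ψ : AddChar G ℂ, ψ (-a) * ∑ n ∈ I, (e n * ψ (κ n)) * (R n : ℂ) := by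
    have h2 : ∀ n ∈ I, (e n * (if κ n = a then 1 else 0)) * (R n : ℂ) =
        ∑ ψ : AddChar G ℂ, (1 / (Fintype.card G : ℂ)) * (ψ (-a) * ((e n * ψ (κ n)) * (R n : ℂ))) := by
      intro n _
      rw [indicator_eq, ← mul_sum, mul_comm (e n), mul_assoc, mul_assoc, sum_mul]
      congr 1
      apply sum_congr rfl
      intro ψ _
      ring
    rw [sum_congr rfl h2, sum_comm, mul_sum]
    apply sum_congr rfl
    intro ψ _
    rw [← mul_sum, ← mul_sum]
  rw [h1, norm_mul]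
  have h3 : ‖∑ ψ : AddChar G ℂ, ψ (-a) * ∑ n ∈ I, (e n * ψ (κ n)) * (R n : ℂ)‖ ≤ (Fintype.card G : ℝ) * B := by
    calc ‖∑ ψ : AddChar G ℂ, ψ (-a) * ∑ n ∈ I, (e n * ψ (κ n)) * (R n : ℂ)‖
        ≤ ∑ ψ : AddChar G ℂ, ‖ψ (-a) * ∑ n ∈ I, (e n * ψ (κ n)) * (R n : ℂ)‖ := norm_sum_le _ _
      _ ≤ ∑ _ψ : AddChar G ℂ, B := by
          apply sum_le_sum
          intro ψ _
          rw [norm_mul, AddChar.norm_apply, one_mul]
          exact h ψ
      _ = (Fintype.card G : ℝ) * B := by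
          rw [sum_const, nsmul_eq_mul, card_univ, hcard]
  have h4 : ‖(1 / (Fintype.card G : ℂ))‖ = 1 / (Fintype.card G : ℝ) := by
    rw [norm_div, norm_one, Complex.norm_natCast]
  rw [h4]
  have hc : (0 : ℝ) < Fintype.card G := by exact_mod_cast hc0
  calc 1 / (Fintype.card G : ℝ) * ‖∑ ψ : AddChar G ℂ, ψ (-a) * ∑ n ∈ I, (e n * ψ (κ n)) * (R n : ℂ)‖
      ≤ 1 / (Fintype.card G : ℝ) * ((Fintype.card G : ℝ) * B) := by
        apply mul_le_mul_of_nonneg_left h3; positivity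
    _ = B := by field_simp

/-- many elements above and below the mean -/
lemma proportion (S : Finset ℕ) (D : ℕ → ℝ) (N δ L : ℝ) (hN : 0 < N) (hδ : 0 < δ) (hL : 0 ≤ L)
    (hD0 : ∀ n ∈ S, 0 ≤ D n) (hD : ∀ n ∈ S, |D n - 1| ≤ L)
    (hS : δ * N ≤ S.card) (h : |∑ n ∈ S, (D n - 1)| ≤ δ ^ 2 / 2 * N) :
    δ ^ 2 / (2 * (L + 1 + δ)) * N ≤ ((S.filter (fun n => 1 - δ ≤ D n)).card : ℝ) ∧
    δ ^ 2 / (2 * (L + 1 + δ)) * N ≤ ((S.filter (fun n => D n ≤ 1 + δ)).card : ℝ) := by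
  rw [abs_le] at h
  have hpos : 0 < 2 * (L + 1 + δ) := by positivity
  constructor
  · have h1 : ∑ n ∈ S, (D n - 1) ≤ (L + δ) * ((S.filter (fun n => 1 - δ ≤ D n)).card : ℝ) - δ * S.card := by
      have h2 : ∀ n ∈ S, D n - 1 ≤ (L + δ) * (if 1 - δ ≤ D n then 1 else 0) - δ := by
        intro n hn
        have h3 := (abs_le.mp (hD n hn)).2
        split_ifs with h4
        · linarith
        · push Not at h4
          linarith
      refine (sum_le_sum h2).trans (le_of_eq ?_)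
      rw [sum_sub_distrib, ← mul_sum, sum_const, nsmul_eq_mul, sum_boole]
      ring
    have h5 : δ ^ 2 / 2 * N ≤ (L + δ) * ((S.filter (fun n => 1 - δ ≤ D n)).card : ℝ) := by nlinarith
    have h6 : (0 : ℝ) ≤ ((S.filter (fun n => 1 - δ ≤ D n)).card : ℝ) := Nat.cast_nonneg _
    rw [div_mul_eq_mul_div, div_le_iff₀ hpos]
    nlinarith
  · have h1 : -((1 + δ) * ((S.filter (fun n => D n ≤ 1 + δ)).card : ℝ)) + δ * S.card ≤ ∑ n ∈ S, (D n - 1) := by
      have h2 : ∀ n ∈ S, -((1 + δ) * (if D n ≤ 1 + δ then 1 else 0)) + δ ≤ D n - 1 := by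
        intro n hn
        have h3 := hD0 n hn
        split_ifs with h4
        · linarith
        · push Not at h4
          linarith
      refine (le_of_eq ?_).trans (sum_le_sum h2)
      rw [sum_add_distrib, sum_neg_distrib, ← mul_sum, sum_const, nsmul_eq_mul, sum_boole]
      ring
    have h5 : δ ^ 2 / 2 * N ≤ (1 + δ) * ((S.filter (fun n => D n ≤ 1 + δ)).card : ℝ) := by nlinarith
    have h6 : (0 : ℝ) ≤ ((S.filter (fun n => D n ≤ 1 + δ)).card : ℝ) := Nat.cast_nonneg _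
    rw [div_mul_eq_mul_div, div_le_iff₀ hpos]
    nlinarith

end Pool.Agent.X20.MF
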