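import Mathlib

/-! Bilinear forms with bounded complex coefficients (helper20). -/

set_option autoImplicit false

namespace Pool.Agent.X20.MF
open Finset

variable {α β : Type*}

lemma sum_abs_le {A : Finset α} {T : α → ℝ} {E : ℝ} (h : ∀ A' : Finset α, A' ⊆ A → |∑ a ∈ A', T a| ≤ E) :
    ∑ a ∈ A, |T a| ≤ 2 * E := by
  classical
  rw [← sum_filter_add_sum_filter_not A (fun a => 0 ≤ T a)]
  have h1 := h (A.filter (fun a => 0 ≤ T a)) (filter_subset _ _)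
  have h2 := h (A.filter (fun a => ¬ 0 ≤ T a)) (filter_subset _ _)
  have e1 : ∑ a ∈ A.filter (fun a => 0 ≤ T a), |T a| = ∑ a ∈ A.filter (fun a => 0 ≤ T a), T a := by
    apply sum_congr rfl
    intro a ha
    rw [mem_filter] at ha
    exact abs_of_nonneg ha.2
  have e2 : ∑ a ∈ A.filter (fun a => ¬ 0 ≤ T a), |T a| = -∑ a ∈ A.filter (fun a => ¬ 0 ≤ T a), T a := by
    rw [← sum_neg_distrib]
    apply sum_congr rfl
    intro a ha
    rw [mem_filter] at ha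
    exact abs_of_neg (not_le.1 ha.2)
  rw [e1, e2]
  have h3 := (abs_le.1 h1).2
  have h4 := (abs_le.1 h2).1
  linarith

lemma lin_le {A : Finset α} {T u : α → ℝ} (hu : ∀ a ∈ A, |u a| ≤ 1) :
    |∑ a ∈ A, u a * T a| ≤ ∑ a ∈ A, |T a| := by
  refine (abs_sum_le_sum_abs _ _).trans (sum_le_sum fun a ha => ?_)
  rw [abs_mul]
  calc |u a| * |T a| ≤ 1 * |T a| := mul_le_mul_of_nonneg_right (hu a ha) (abs_nonneg _)
    _ = _ := one_mul _

lemma bil_real {A : Finset α} {C : Finset β} {F : α → β → ℝ} {E : ℝ}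
    (h : ∀ A' : Finset α, A' ⊆ A → ∀ C' : Finset β, C' ⊆ C → |∑ a ∈ A', ∑ c ∈ C', F a c| ≤ E)
    {u : α → ℝ} {v : β → ℝ} (hu : ∀ a ∈ A, |u a| ≤ 1) (hv : ∀ c ∈ C, |v c| ≤ 1) :
    |∑ a ∈ A, ∑ c ∈ C, u a * v c * F a c| ≤ 4 * E := by
  have e : ∑ a ∈ A, ∑ c ∈ C, u a * v c * F a c = ∑ a ∈ A, u a * ∑ c ∈ C, v c * F a c := by
    apply sum_congr rfl
    intro a _
    rw [mul_sum]
    apply sum_congr rfl
    intro c _
    ring
  rw [e]
  refine (lin_le hu).trans ?_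
  have : ∑ a ∈ A, |∑ c ∈ C, v c * F a c| ≤ 2 * (2 * E) := by
    apply sum_abs_le
    intro A' hA'
    rw [sum_comm]
    have e2 : ∑ c ∈ C, ∑ a ∈ A', v c * F a c = ∑ c ∈ C, v c * ∑ a ∈ A', F a c := by
      apply sum_congr rfl
      intro c _
      rw [mul_sum]
    rw [e2]
    refine (lin_le hv).trans ?_
    apply sum_abs_le
    intro C' hC'
    rw [sum_comm]
    exact h A' hA' C' hC'
  linarith

/-- complex coefficients -/
theorem bil {A : Finset α} {C : Finset β} {F : α → β → ℝ} {E : ℝ}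
    (h : ∀ A' : Finset α, A' ⊆ A → ∀ C' : Finset β, C' ⊆ C → |∑ a ∈ A', ∑ c ∈ C', F a c| ≤ E)
    {u : α → ℂ} {v : β → ℂ} (hu : ∀ a ∈ A, ‖u a‖ ≤ 1) (hv : ∀ c ∈ C, ‖v c‖ ≤ 1) :
    ‖∑ a ∈ A, ∑ c ∈ C, u a * v c * (F a c : ℂ)‖ ≤ 16 * E := by
  have hur : ∀ a ∈ A, |(u a).re| ≤ 1 := fun a ha => (Complex.abs_re_le_norm _).trans (hu a ha)
  have hui : ∀ a ∈ A, |(u a).im| ≤ 1 := fun a ha => (Complex.abs_im_le_norm _).trans (hu a ha)
  have hvr : ∀ c ∈ C, |(v c).re| ≤ 1 := fun c hc => (Complex.abs_re_le_norm _).trans (hv c hc)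
  have hvi : ∀ c ∈ C, |(v c).im| ≤ 1 := fun c hc => (Complex.abs_im_le_norm _).trans (hv c hc)
  have h1 := bil_real h hur hvr
  have h2 := bil_real h hui hvi
  have h3 := bil_real h hur hvi
  have h4 := bil_real h hui hvr
  have ere : (∑ a ∈ A, ∑ c ∈ C, u a * v c * (F a c : ℂ)).re =
      ∑ a ∈ A, ∑ c ∈ C, (u a).re * (v c).re * F a c - ∑ a ∈ A, ∑ c ∈ C, (u a).im * (v c).im * F a c := by
    rw [Complex.re_sum, ← sum_sub_distrib]
    apply sum_congr rfl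
    intro a _
    rw [Complex.re_sum, ← sum_sub_distrib]
    apply sum_congr rfl
    intro c _
    simp [Complex.mul_re, Complex.mul_im]
    ring
  have eim : (∑ a ∈ A, ∑ c ∈ C, u a * v c * (F a c : ℂ)).im =
      ∑ a ∈ A, ∑ c ∈ C, (u a).re * (v c).im * F a c + ∑ a ∈ A, ∑ c ∈ C, (u a).im * (v c).re * F a c := by
    rw [Complex.im_sum, ← sum_add_distrib]
    apply sum_congr rfl
    intro a _
    rw [Complex.im_sum, ← sum_add_distrib]
    apply sum_congr rfl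
    intro c _
    simp [Complex.mul_re, Complex.mul_im]
    ring
  refine (Complex.norm_le_abs_re_add_abs_im _).trans ?_
  rw [ere, eim]
  have g1 := abs_sub (∑ a ∈ A, ∑ c ∈ C, (u a).re * (v c).re * F a c) (∑ a ∈ A, ∑ c ∈ C, (u a).im * (v c).im * F a c)
  have g2 := abs_add_le (∑ a ∈ A, ∑ c ∈ C, (u a).re * (v c).im * F a c) (∑ a ∈ A, ∑ c ∈ C, (u a).im * (v c).re * F a c)
  linarith

end Pool.Agent.X20.MF
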