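import Pool.Agent.Y851.PT.P5
import Pool.Agent.Y851.PS.G9

/-! The block estimate for windows to the right of products of a prime and an integer (helper20). -/

set_option autoImplicit false

namespace Pool.Agent.X20.MF
open Finset Filter
open Pool.Agent.Y851.PS Pool.Agent.Y851.PT

/-- `π(n, H) log n / H` -/
noncomputable def fR (H : ℝ) (n : ℕ) : ℝ :=
  (((Finset.Ioc n ⌊(n : ℝ) + H⌋₊).filter Nat.Prime).card : ℝ) * Real.log n / H

lemma nat_count (C : Finset ℕ) (x y : ℝ) (h : ∀ c ∈ C, x ≤ (c : ℝ) ∧ (c : ℝ) < y) (hxy : x ≤ y) :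
    (C.card : ℝ) ≤ y - x + 1 := by
  rcases C.eq_empty_or_nonempty with h0 | h0
  · rw [h0]; simp; linarith
  · obtain ⟨m, hm⟩ : ∃ m, m = C.min' h0 := ⟨_, rfl⟩
    have hmC : m ∈ C := by rw [hm]; exact C.min'_mem h0
    have hy0 : 0 < y := lt_of_le_of_lt (Nat.cast_nonneg m) (h m hmC).2
    have hsub : C ⊆ Ico m ⌈y⌉₊ := by
      intro c hc
      rw [mem_Ico]
      constructor
      · rw [hm]; exact C.min'_le c hc
      · rw [Nat.lt_ceil]; exact (h c hc).2
    have h1 := card_le_card hsub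
    rw [Nat.card_Ico] at h1
    have h2 : m ≤ ⌈y⌉₊ := by
      have : m < ⌈y⌉₊ := by rw [Nat.lt_ceil]; exact (h m hmC).2
      exact this.le
    have h3 : (C.card : ℝ) ≤ (⌈y⌉₊ : ℝ) - m := by
      rw [← Nat.cast_sub h2]; exact_mod_cast h1
    have h4 := Nat.ceil_lt_add_one hy0.le
    have h5 := (h m hmC).1
    linarith

lemma cmp_low {a c : ℕ} {H H1 s : ℝ} (h1 : H1 ≤ a * s) (h2 : a * s ≤ H) (hH1 : 0 ≤ H1) :
    ((PH H1 (a * (c + s))).card : ℝ) ≤
      (((Finset.Ioc (a * c) ⌊((a * c : ℕ) : ℝ) + H⌋₊).filter Nat.Prime).card : ℝ) := by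
  classical
  apply Nat.cast_le.2
  apply card_le_card
  intro p hp
  have hx : 0 ≤ (a : ℝ) * (c + s) := by
    have h3 : (0 : ℝ) ≤ (a : ℝ) * c := by positivity
    have : (a : ℝ) * (c + s) = a * c + a * s := by ring
    rw [this]; linarith
  rw [mem_PH hx] at hp
  rw [mem_filter, mem_Ioc]
  refine ⟨⟨?_, ?_⟩, hp.1⟩
  · have h3 : ((a * c : ℕ) : ℝ) < p := by
      push_cast
      have := hp.2.1
      nlinarith
    exact_mod_cast h3
  · apply Nat.le_floor
    push_cast
    have := hp.2.2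
    nlinarith

lemma cmp_up {a c : ℕ} {H H2 s : ℝ} (h1 : H < a * s) (h2 : a * s ≤ H2) (hH : 0 ≤ H) :
    (((Finset.Ioc (a * c) ⌊((a * c : ℕ) : ℝ) + H⌋₊).filter Nat.Prime).card : ℝ) ≤
      ((PH H2 (a * (c + s))).card : ℝ) := by
  classical
  apply Nat.cast_le.2
  apply card_le_card
  intro p hp
  rw [mem_filter, mem_Ioc] at hp
  obtain ⟨⟨h3, h4⟩, h5⟩ := hp
  have hx : 0 ≤ (a : ℝ) * (c + s) := by
    have h3 : (0 : ℝ) ≤ (a : ℝ) * c := by positivity
    have : (a : ℝ) * (c + s) = a * c + a * s := by ring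
    rw [this]; linarith
  rw [mem_PH hx]
  have h6 : ((a * c : ℕ) : ℝ) < p := by exact_mod_cast h3
  have h7 : (p : ℝ) ≤ ((a * c : ℕ) : ℝ) + H := by
    rw [Nat.le_floor_iff (by positivity)] at h4
    exact h4
  push_cast at h6 h7
  refine ⟨h5, ?_, ?_⟩
  · nlinarith
  · nlinarith

/-- the cell condition for a shifted set of integers -/
lemma cell_shift {C : Finset ℕ} {U w s ρ B : ℝ} {K : ℕ} (hK : 1 ≤ K) (hw1 : w ≤ 1 / 2)
    (hs : 0 ≤ s) (hsU : s ≤ Real.exp U) (hKU : (K : ℝ) ≤ Real.exp U) (hρ : 0 < ρ) (hB : 7 / ρ ≤ B)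
    (hC : ∀ c ∈ C, 1 ≤ c ∧ U ≤ Real.log c ∧ Real.log c < U + w) (hCc : ρ * Real.exp U ≤ C.card) (u : ℝ) :
    (((C.image (fun c : ℕ => (c : ℝ) + s)).filter (fun c => u ≤ Real.log c ∧ Real.log c < u + 1 / K)).card : ℝ) ≤
      B * ((C.image (fun c : ℕ => (c : ℝ) + s)).card : ℝ) / K := by
  classical
  have hK0 : (0 : ℝ) < K := by exact_mod_cast hK
  have hK1 : (1 : ℝ) ≤ K := by exact_mod_cast hK
  have hinj : Function.Injective (fun c : ℕ => (c : ℝ) + s) := by
    intro x y h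
    simp only [add_left_inj, Nat.cast_inj] at h
    exact h
  rw [filter_image, card_image_of_injective _ hinj, card_image_of_injective _ hinj]
  obtain ⟨D, hD⟩ : ∃ D : Finset ℕ, D = C.filter (fun c : ℕ => u ≤ Real.log ((c : ℝ) + s) ∧
    Real.log ((c : ℝ) + s) < u + 1 / K) := ⟨_, rfl⟩
  rw [← hD]
  have hC0 : (0 : ℝ) ≤ C.card := Nat.cast_nonneg _
  have hB0 : 0 < B := lt_of_lt_of_le (by positivity) hB
  rcases D.eq_empty_or_nonempty with h0 | h0
  · rw [h0, card_empty, Nat.cast_zero]; positivity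
  · obtain ⟨d, hd⟩ := h0
    have hmem : ∀ c ∈ D, Real.exp u - s ≤ (c : ℝ) ∧ (c : ℝ) < Real.exp (u + 1 / K) - s := by
      intro c hc
      rw [hD, mem_filter] at hc
      have hc1 : (1 : ℝ) ≤ c := by exact_mod_cast (hC c hc.1).1
      have hpos : 0 < (c : ℝ) + s := by linarith
      have h1 := hc.2.1
      have h2 := hc.2.2
      rw [Real.le_log_iff_exp_le hpos] at h1
      rw [Real.log_lt_iff_lt_exp hpos] at h2
      constructor <;> linarith
    have hexpK : Real.exp (1 / (K : ℝ)) ≤ 1 + 2 / K := by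
      have h1 : (1 : ℝ) / K ≤ 1 := by rw [div_le_one hK0]; exact hK1
      have h2 : (0 : ℝ) ≤ 1 / K := by positivity
      have h3 := Real.abs_exp_sub_one_le (x := 1 / (K : ℝ)) (by rw [abs_of_nonneg h2]; exact h1)
      rw [abs_of_nonneg h2] at h3
      have h4 := (abs_le.1 h3).2
      have h5 : 2 * (1 / (K : ℝ)) = 2 / K := by ring
      linarith
    have hcount := nat_count D _ _ hmem (by
      have : Real.exp u ≤ Real.exp (u + 1 / K) := Real.exp_le_exp.2 (by
        have : (0 : ℝ) ≤ 1 / K := by positivity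
        linarith)
      linarith)
    have hdC : d ∈ C := by rw [hD, mem_filter] at hd; exact hd.1
    have hdU : (d : ℝ) ≤ 2 * Real.exp U := by
      obtain ⟨h1, h2, h3⟩ := hC d hdC
      have hd0 : (0 : ℝ) < d := by exact_mod_cast h1
      rw [Real.log_lt_iff_lt_exp hd0, Real.exp_add] at h3
      have h4 : Real.exp w ≤ 2 := by
        have h5 : Real.exp w ≤ Real.exp (1 / 2) := Real.exp_le_exp.2 hw1
        have h6 : Real.exp (1 / 2) * Real.exp (1 / 2) = Real.exp 1 := by
          rw [← Real.exp_add]; norm_num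
        have h7 := Real.exp_one_lt_d9
        have h8 := Real.exp_pos (1 / 2)
        nlinarith
      have h5 := Real.exp_pos U
      nlinarith
    have hu3 : Real.exp u ≤ 3 * Real.exp U := by
      have := (hmem d hd).1
      linarith
    have h6 : Real.exp (u + 1 / K) - s - (Real.exp u - s) + 1 ≤ 7 * Real.exp U / K := by
      have e1 : Real.exp (u + 1 / K) = Real.exp u * Real.exp (1 / K) := Real.exp_add _ _
      have h7 : Real.exp u * Real.exp (1 / K) ≤ Real.exp u * (1 + 2 / K) :=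
        mul_le_mul_of_nonneg_left hexpK (Real.exp_pos _).le
      have h8 : Real.exp u * (2 / K) ≤ 3 * Real.exp U * (2 / K) :=
        mul_le_mul_of_nonneg_right hu3 (by positivity)
      have h9 : 1 ≤ Real.exp U / K := by rw [le_div_iff₀ hK0]; linarith
      have h10 : 7 * Real.exp U / K = 3 * Real.exp U * (2 / K) + Real.exp U / K := by ring
      rw [h10, e1]
      linarith
    have h11 : 7 * Real.exp U / K ≤ B * (C.card : ℝ) / K := by
      apply div_le_div_of_nonneg_right _ hK0.le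
      have h12 : 7 * Real.exp U = 7 / ρ * (ρ * Real.exp U) := by field_simp
      rw [h12]
      exact mul_le_mul hB hCc (by positivity) hB0.le
    linarith

lemma log_shift {a c : ℕ} {s τ : ℝ} (ha : 1 ≤ a) (hc : 1 ≤ c) (hs : 0 ≤ s) (hsc : s ≤ τ * c)
    (hlog : 1 ≤ Real.log ((a * c : ℕ) : ℝ)) :
    Real.log ((a * c : ℕ) : ℝ) ≤ Real.log (a * (c + s)) ∧
    Real.log (a * (c + s)) ≤ (1 + τ) * Real.log ((a * c : ℕ) : ℝ) := by
  have ha0 : (0 : ℝ) < a := by exact_mod_cast ha
  have hc0 : (0 : ℝ) < c := by exact_mod_cast hc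
  have hτ : 0 ≤ τ := by
    by_contra h
    push Not at h
    nlinarith
  constructor
  · apply Real.log_le_log
    · push_cast; positivity
    · push_cast; nlinarith
  · have h1 : (a : ℝ) * (c + s) ≤ ((a * c : ℕ) : ℝ) * (1 + τ) := by
      push_cast
      nlinarith [mul_le_mul_of_nonneg_left hsc ha0.le]
    have h2 := Real.log_le_log (by positivity) h1
    have h2' : Real.log (((a * c : ℕ) : ℝ) * (1 + τ)) = Real.log ((a * c : ℕ) : ℝ) + Real.log (1 + τ) :=
      Real.log_mul (by push_cast; positivity) (by positivity)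
    rw [h2'] at h2
    have h3 : Real.log (1 + τ) ≤ τ := by
      have := Real.log_le_sub_one_of_pos (show (0 : ℝ) < 1 + τ by linarith)
      linarith
    nlinarith

theorem blockR (δ : ℝ) (hδ : 0 < δ) (hδ1 : δ ≤ 1 / 10) : ∃ w₁ : ℝ, 0 < w₁ ∧ w₁ ≤ 1 / 100 ∧
    ∀ w : ℝ, 0 < w → w ≤ w₁ → ∀ ρ η ε θ : ℝ, 0 < ρ → 0 < η → 0 < θ → θ < ε →
    ∃ r Y₀ : ℝ, 0 < r ∧ ∀ Y : ℝ, Y₀ ≤ Y → ∀ V U : ℝ, V + U = Y → η * Y ≤ V → V ≤ θ * Y →
    ∀ H : ℝ, Real.exp (ε * Y) ≤ H → H ≤ r * Real.exp Y →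
    ∀ A : Finset ℕ, (∀ a ∈ A, a.Prime ∧ V ≤ Real.log a ∧ Real.log a < V + w) → ρ * (Real.exp V / V) ≤ A.card →
    ∀ C : Finset ℕ, (∀ c ∈ C, 1 ≤ c ∧ U ≤ Real.log c ∧ Real.log c < U + w) → ρ * Real.exp U ≤ C.card →
    |∑ a ∈ A, ∑ c ∈ C, (fR H (a * c) - 1)| ≤ δ * (A.card * C.card) := by
  classical
  obtain ⟨L0, hL0, hblockH⟩ := blockH (δ / 4) (by positivity) (by linarith)
  have hL00 : 0 < L0 := by linarith
  refine ⟨δ / 400, by positivity, by linarith, fun w hw hw1 ρ η ε θ hρ hη hθ hθε => ?_⟩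
  have hε : 0 < ε := hθ.trans hθε
  obtain ⟨κ, hκ, hb⟩ := hblockH (max 1 (7 / ρ)) 1 (le_max_left _ _) one_pos
  obtain ⟨μ, T0, V₀, hμ, hmaj⟩ := maj_prime κ ρ hκ hρ ⌈2 / η⌉₊
  obtain ⟨r₀, Y₁, hr₀, hb⟩ := hb μ T0 hμ
  set r := min (r₀ / 4) (δ / 1600) with hr
  have hr0 : 0 < r := lt_min (by positivity) (by positivity)
  have hrr₀ : r ≤ r₀ / 4 := min_le_left _ _
  have hrδ : r ≤ δ / 1600 := min_le_right _ _
  -- eventual conditions
  have hev : ∀ᶠ Y : ℝ in atTop, 64 * L0 ≤ Real.exp ((ε - θ) * Y) ∧ 2 * Y + 800 / δ + 4 ≤ Real.exp (ε * Y) ∧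
      Y₁ ≤ Y ∧ V₀ ≤ η * Y ∧ 1 ≤ Y ∧ 64 * L0 ≤ Real.exp Y := by
    have t1 : Tendsto (fun Y : ℝ => Real.exp ((ε - θ) * Y)) atTop atTop :=
      Real.tendsto_exp_atTop.comp (tendsto_id.const_mul_atTop (by linarith))
    have t2 : ∀ᶠ Y : ℝ in atTop, 2 * Y + 800 / δ + 4 ≤ Real.exp (ε * Y) := by
      have h1 : Tendsto (fun Y : ℝ => Real.exp (ε * Y) / (ε * Y) ^ 1) atTop atTop :=
        (Real.tendsto_exp_div_pow_atTop 1).comp (tendsto_id.const_mul_atTop hε)
      filter_upwards [h1.eventually_ge_atTop ((3 + 800 / δ + 4) / ε), eventually_ge_atTop 1] with Y hY hY1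
      have h2 : 0 < ε * Y := by positivity
      rw [pow_one, le_div_iff₀ h2] at hY
      have h3 : (3 + 800 / δ + 4) / ε * (ε * Y) = (3 + 800 / δ + 4) * Y := by field_simp
      rw [h3] at hY
      have h4 : 0 < 800 / δ := by positivity
      nlinarith
    filter_upwards [t1.eventually_ge_atTop (64 * L0), t2, eventually_ge_atTop Y₁,
      (tendsto_id.const_mul_atTop hη).eventually_ge_atTop V₀, eventually_ge_atTop 1,
      Real.tendsto_exp_atTop.eventually_ge_atTop (64 * L0)] with Y a b c d e f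
    exact ⟨a, b, c, d, e, f⟩
  obtain ⟨Y₀, hY₀⟩ := Filter.eventually_atTop.1 hev
  refine ⟨r, Y₀, hr0, fun Y hY V U hVU hV1 hV2 H hH1 hH2 A hA hAc C hC hCc => ?_⟩
  obtain ⟨g1, g2, g3, g4, g5, g6⟩ := hY₀ Y hY
  have hY0 : 0 < Y := by linarith
  have hVV₀ : V₀ ≤ V := g4.trans hV1
  have hV0 : 0 < V := lt_of_lt_of_le (by positivity) hV1
  have hHbig : 2 * Y + 800 / δ + 4 ≤ H := g2.trans hH1
  have h800 : 0 < 800 / δ := by positivity
  have hH0 : 0 < H := by linarith
  have hH1' : 4 ≤ H := by linarith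
  have heY := Real.exp_pos Y
  have heV := Real.exp_pos V
  have heU := Real.exp_pos U
  have heVU : Real.exp V * Real.exp U = Real.exp Y := by rw [← Real.exp_add, hVU]
  -- exponentials of `w`
  have hw400 : w ≤ δ / 400 := hw1
  have hwsmall : w ≤ 1 / 4000 := by linarith
  have hexpw : Real.exp w ≤ 1 + 2 * w := by
    have h3 := Real.abs_exp_sub_one_le (x := w) (by rw [abs_of_pos hw]; linarith)
    rw [abs_of_pos hw] at h3
    linarith [(abs_le.1 h3).2]
  have hexpw1 : 1 ≤ Real.exp w := Real.one_le_exp hw.le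
  have hexpw0 := Real.exp_pos w
  have hexpnw : Real.exp (-w) * Real.exp w = 1 := by rw [← Real.exp_add]; simp
  have hexpnw0 := Real.exp_pos (-w)
  have hexpnw1 : 1 / 2 ≤ Real.exp (-w) := by
    have := Real.add_one_le_exp (-w)
    linarith
  have hexpnw2 : Real.exp (-w) ≤ 1 := by rw [Real.exp_le_one_iff]; linarith
  -- a general application of the block estimate
  have happ : ∀ s H' : ℝ, 0 ≤ s → s * Real.exp V ≤ 2 * H → H / 2 ≤ H' → H' ≤ 4 * H →
      |∑ a ∈ A, ∑ c ∈ C, (ZH H' (a * (c + s)) - 1)| ≤ δ / 4 * (A.card * C.card) := by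
    intro s H' hs hsV hH'1 hH'2
    have hH'0 : 0 < H' := by linarith
    have hsU : s ≤ 2 * r * Real.exp U := by
      have h1 : s * Real.exp V ≤ (2 * r * Real.exp U) * Real.exp V := by
        calc s * Real.exp V ≤ 2 * H := hsV
          _ ≤ 2 * (r * Real.exp Y) := by linarith
          _ = _ := by rw [← heVU]; ring
      exact le_of_mul_le_mul_right h1 heV
    have hr1 : 2 * r ≤ δ / 800 := by linarith
    have hinj : Function.Injective (fun c : ℕ => (c : ℝ) + s) := by
      intro x y h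
      simp only [add_left_inj, Nat.cast_inj] at h
      exact h
    set K : ℕ := ⌈2 * L0 * (Real.exp Y / H')⌉₊ with hK
    have hK1 : 2 * L0 * (Real.exp Y / H') ≤ K := Nat.le_ceil _
    have hratio : 1 ≤ Real.exp Y / H' := by
      rw [le_div_iff₀ hH'0, one_mul]
      calc H' ≤ 4 * H := hH'2
        _ ≤ 4 * (r * Real.exp Y) := by linarith
        _ ≤ 1 * Real.exp Y := by
          have : 4 * r ≤ 1 := by linarith
          nlinarith
        _ = _ := one_mul _
    have hK2' : (K : ℝ) ≤ 2 * L0 * (Real.exp Y / H') + 1 := (Nat.ceil_lt_add_one (by positivity)).le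
    have hLr : 1 ≤ L0 * (Real.exp Y / H') := by nlinarith
    have hK2 : (K : ℝ) ≤ 8 * L0 * (Real.exp Y / H') := by nlinarith
    have hKpos : (0 : ℝ) < K := lt_of_lt_of_le (by positivity) hK1
    have hKnat : 1 ≤ K := by
      have : 0 < K := by exact_mod_cast hKpos
      omega
    have hKU : (K : ℝ) ≤ Real.exp U := by
      have h1 : Real.exp Y / H' ≤ 2 * (Real.exp Y / Real.exp (ε * Y)) := by
        rw [div_le_iff₀ hH'0]
        have h2 : Real.exp (ε * Y) ≤ 2 * H' := by linarith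
        have h3 := Real.exp_pos (ε * Y)
        calc Real.exp Y = (Real.exp Y / Real.exp (ε * Y)) * Real.exp (ε * Y) := by field_simp
          _ ≤ (Real.exp Y / Real.exp (ε * Y)) * (2 * H') := by gcongr
          _ = _ := by ring
      have h2 : Real.exp Y / Real.exp (ε * Y) = Real.exp ((1 - ε) * Y) := by
        rw [← Real.exp_sub]; congr 1; ring
      have h3 : Real.exp ((1 - θ) * Y) ≤ Real.exp U := by
        rw [Real.exp_le_exp]; linarith
      have h4 : Real.exp ((1 - θ) * Y) = Real.exp ((1 - ε) * Y) * Real.exp ((ε - θ) * Y) := by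
        rw [← Real.exp_add]; congr 1; ring
      have h5 := Real.exp_pos ((1 - ε) * Y)
      calc (K : ℝ) ≤ 8 * L0 * (Real.exp Y / H') := hK2
        _ ≤ 8 * L0 * (2 * Real.exp ((1 - ε) * Y)) := by
          rw [h2] at h1
          exact mul_le_mul_of_nonneg_left h1 (by positivity)
        _ = Real.exp ((1 - ε) * Y) * (16 * L0) := by ring
        _ ≤ Real.exp ((1 - ε) * Y) * Real.exp ((ε - θ) * Y) := by
          apply mul_le_mul_of_nonneg_left _ h5.le
          linarith
        _ ≤ _ := by rw [← h4]; exact h3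
    have hMaj : Maj A μ κ T0 K := by
      apply hmaj V hVV₀ A _ hAc K
      · have h1 : (K : ℝ) ≤ 16 * L0 * Real.exp Y := by
          calc (K : ℝ) ≤ 8 * L0 * (Real.exp Y / H') := hK2
            _ ≤ 8 * L0 * (Real.exp Y / 1) := by
              have : (1 : ℝ) ≤ H' := by linarith
              gcongr
            _ ≤ _ := by rw [div_one]; nlinarith
        have h2 : 2 * Y ≤ (⌈2 / η⌉₊ : ℝ) * V := by
          have h3 : 2 / η ≤ (⌈2 / η⌉₊ : ℝ) := Nat.le_ceil _
          calc 2 * Y = 2 / η * (η * Y) := by field_simp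
            _ ≤ (⌈2 / η⌉₊ : ℝ) * V := mul_le_mul h3 hV1 (by positivity) (Nat.cast_nonneg _)
        calc 2 * (K : ℝ) ≤ 32 * L0 * Real.exp Y := by linarith
          _ ≤ Real.exp Y * Real.exp Y := by nlinarith
          _ = Real.exp (2 * Y) := by rw [← Real.exp_add]; congr 1; ring
          _ ≤ _ := Real.exp_le_exp.2 h2
      · intro a ha
        obtain ⟨h1, h2, h3⟩ := hA a ha
        refine ⟨h1, ?_⟩
        rw [abs_le]
        constructor <;> linarith
    have hres := hb Y g3 H' (by rw [one_mul]; linarith) (by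
        calc H' ≤ 4 * H := hH'2
          _ ≤ 4 * (r * Real.exp Y) := by linarith
          _ ≤ r₀ * Real.exp Y := by
            have : 4 * r ≤ r₀ := by linarith
            nlinarith) K hK1 hK2 A (fun a ha => (hA a ha).1.one_lt.le) hMaj
      (C.image (fun c : ℕ => (c : ℝ) + s)) (by
        intro x hx
        rw [mem_image] at hx
        obtain ⟨c, hc, rfl⟩ := hx
        have : (1 : ℝ) ≤ c := by exact_mod_cast (hC c hc).1
        linarith) (fun u => cell_shift hKnat (by linarith) hs (by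
          calc s ≤ 2 * r * Real.exp U := hsU
            _ ≤ 1 * Real.exp U := by
              apply mul_le_mul_of_nonneg_right _ heU.le
              linarith
            _ = _ := one_mul _) hKU hρ (le_max_right _ _) hC hCc u)
      (by
        have hlogc : ∀ c ∈ C, U ≤ Real.log ((c : ℝ) + s) ∧ Real.log ((c : ℝ) + s) ≤ U + w + δ / 800 := by
          intro c hc
          obtain ⟨h1, h2, h3⟩ := hC c hc
          have hc0 : (0 : ℝ) < c := by exact_mod_cast h1
          constructor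
          · refine h2.trans (Real.log_le_log hc0 (by linarith))
          · have h4 : Real.exp U ≤ c := by rwa [Real.le_log_iff_exp_le hc0] at h2
            have h5 : (c : ℝ) + s ≤ c * (1 + δ / 800) := by
              have : s ≤ δ / 800 * c := by
                calc s ≤ 2 * r * Real.exp U := hsU
                  _ ≤ δ / 800 * c := mul_le_mul hr1 h4 heU.le (by positivity)
              linarith
            have h6 := Real.log_le_log (by linarith) h5
            rw [Real.log_mul hc0.ne' (by positivity)] at h6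
            have h7 : Real.log (1 + δ / 800) ≤ δ / 800 := by
              have := Real.log_le_sub_one_of_pos (show (0 : ℝ) < 1 + δ / 800 by positivity)
              linarith
            linarith
        intro x hx y hy
        rw [mem_image] at hx hy
        obtain ⟨c, hc, rfl⟩ := hx
        obtain ⟨d, hd, rfl⟩ := hy
        have h1 := hlogc c hc
        have h2 := hlogc d hd
        rw [abs_le]
        constructor <;> linarith [h1.1, h1.2, h2.1, h2.2])
      (by
        intro a ha x hx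
        rw [mem_image] at hx
        obtain ⟨c, hc, rfl⟩ := hx
        obtain ⟨h1, h2, h3⟩ := hC c hc
        obtain ⟨_, h4, h5⟩ := hA a ha
        have hc0 : (0 : ℝ) < c := by exact_mod_cast h1
        have h6 : Real.log c ≤ Real.log ((c : ℝ) + s) := Real.log_le_log hc0 (by linarith)
        have h4' : Real.exp U ≤ c := by rwa [Real.le_log_iff_exp_le hc0] at h2
        have h7 : (c : ℝ) + s ≤ c * (1 + δ / 800) := by
          have : s ≤ δ / 800 * c := by
            calc s ≤ 2 * r * Real.exp U := hsU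
              _ ≤ δ / 800 * c := mul_le_mul hr1 h4' heU.le (by positivity)
          linarith
        have h8 := Real.log_le_log (by linarith) h7
        rw [Real.log_mul hc0.ne' (by positivity)] at h8
        have h9 : Real.log (1 + δ / 800) ≤ δ / 800 := by
          have := Real.log_le_sub_one_of_pos (show (0 : ℝ) < 1 + δ / 800 by positivity)
          linarith
        rw [abs_le]
        constructor
        · have : (0 : ℝ) ≤ min (1 / 8) (δ / 4 / 24) := le_min (by norm_num) (by positivity)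
          linarith
        · apply le_min
          · linarith
          · linarith)
    rw [card_image_of_injective _ hinj] at hres
    refine le_trans (le_of_eq ?_) hres
    congr 1
    apply sum_congr rfl
    intro a _
    rw [sum_image (fun x _ y _ h => hinj h)]
  -- the two applications
  have hAC0 : (0 : ℝ) ≤ A.card * C.card := by positivity
  have hlogac : ∀ a ∈ A, ∀ c ∈ C, 1 ≤ Real.log ((a * c : ℕ) : ℝ) := by
    intro a ha c hc
    have ha0 : (0 : ℝ) < a := by exact_mod_cast (hA a ha).1.pos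
    have hc0 : (0 : ℝ) < c := by exact_mod_cast (hC c hc).1
    rw [Nat.cast_mul, Real.log_mul ha0.ne' hc0.ne']
    have := (hA a ha).2.1
    have := (hC c hc).2.1
    linarith
  have haV : ∀ a ∈ A, Real.exp V ≤ a ∧ (a : ℝ) ≤ Real.exp V * Real.exp w := by
    intro a ha
    obtain ⟨h1, h2, h3⟩ := hA a ha
    have ha0 : (0 : ℝ) < a := by exact_mod_cast h1.pos
    constructor
    · rwa [Real.le_log_iff_exp_le ha0] at h2
    · rw [Real.log_lt_iff_lt_exp ha0, Real.exp_add] at h3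
      exact h3.le
  have hcU : ∀ c ∈ C, Real.exp U ≤ c := by
    intro c hc
    obtain ⟨h1, h2, h3⟩ := hC c hc
    have hc0 : (0 : ℝ) < c := by exact_mod_cast h1
    rwa [Real.le_log_iff_exp_le hc0] at h2
  obtain ⟨s1, hs1⟩ : ∃ s1 : ℝ, s1 = H * Real.exp (-w) / Real.exp V := ⟨_, rfl⟩
  obtain ⟨s2, hs2⟩ : ∃ s2 : ℝ, s2 = (H + 1) / Real.exp V := ⟨_, rfl⟩
  have hs1V : s1 * Real.exp V = H * Real.exp (-w) := by rw [hs1]; field_simp
  have hs2V : s2 * Real.exp V = H + 1 := by rw [hs2]; field_simp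
  have hs10 : 0 ≤ s1 := by rw [hs1]; positivity
  have hs20 : 0 ≤ s2 := by rw [hs2]; positivity
  have hHw : H * Real.exp (-w) ≤ H := by nlinarith
  have hHw2 : H / 2 ≤ H * Real.exp (-w) := by nlinarith
  have R1 := happ s1 (H * Real.exp (-w)) hs10 (by rw [hs1V]; linarith) hHw2 (by linarith)
  have R2 := happ s2 ((H + 1) * Real.exp w) hs20 (by rw [hs2V]; linarith) (by nlinarith) (by nlinarith)
  have hsc : ∀ s : ℝ, s * Real.exp V ≤ 2 * H → ∀ c ∈ C, s ≤ δ / 800 * c := by
    intro s hsV c hc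
    have h1 : s * Real.exp V ≤ (2 * r * Real.exp U) * Real.exp V := by
      calc s * Real.exp V ≤ 2 * H := hsV
        _ ≤ 2 * (r * Real.exp Y) := by linarith
        _ = _ := by rw [← heVU]; ring
    have h2 : s ≤ 2 * r * Real.exp U := le_of_mul_le_mul_right h1 heV
    calc s ≤ 2 * r * Real.exp U := h2
      _ ≤ δ / 800 * c := mul_le_mul (by linarith) (hcU c hc) heU.le (by positivity)
  have hcmp1 : ∀ a ∈ A, ∀ c ∈ C, ZH (H * Real.exp (-w)) (a * (c + s1)) ≤
      Real.exp w * (1 + δ / 800) * fR H (a * c) := by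
    intro a ha c hc
    have ha1 : 1 ≤ a := (hA a ha).1.one_lt.le
    have hc1 : 1 ≤ c := (hC c hc).1
    obtain ⟨b1, b2⟩ := haV a ha
    have k1 := cmp_low (a := a) (c := c) (H := H) (H1 := H * Real.exp (-w)) (s := s1)
      (by rw [← hs1V, mul_comm]; exact mul_le_mul_of_nonneg_right b1 hs10)
      (by
        calc (a : ℝ) * s1 ≤ Real.exp V * Real.exp w * s1 := mul_le_mul_of_nonneg_right b2 hs10
          _ = (s1 * Real.exp V) * Real.exp w := by ring
          _ = H * (Real.exp (-w) * Real.exp w) := by rw [hs1V]; ring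
          _ ≤ H := by rw [hexpnw, mul_one]) (by positivity)
    have k2 := (log_shift ha1 hc1 hs10 (hsc s1 (by rw [hs1V]; linarith) c hc) (hlogac a ha c hc)).2
    have k3 : 0 ≤ Real.log ((a : ℝ) * (c + s1)) := by
      have := (log_shift ha1 hc1 hs10 (hsc s1 (by rw [hs1V]; linarith) c hc) (hlogac a ha c hc)).1
      linarith [hlogac a ha c hc]
    unfold ZH fR
    rw [div_le_iff₀ (by positivity)]
    have e : Real.exp w * (1 + δ / 800) *
        ((((Finset.Ioc (a * c) ⌊((a * c : ℕ) : ℝ) + H⌋₊).filter Nat.Prime).card : ℝ) *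
          Real.log ((a * c : ℕ) : ℝ) / H) * (H * Real.exp (-w)) =
        (((Finset.Ioc (a * c) ⌊((a * c : ℕ) : ℝ) + H⌋₊).filter Nat.Prime).card : ℝ) *
          ((1 + δ / 800) * Real.log ((a * c : ℕ) : ℝ)) * (Real.exp (-w) * Real.exp w) := by
      field_simp
    rw [e, hexpnw, mul_one]
    exact mul_le_mul k1 k2 k3 (Nat.cast_nonneg _)
  have hcmp2 : ∀ a ∈ A, ∀ c ∈ C, fR H (a * c) ≤
      (1 + 1 / H) * Real.exp w * ZH ((H + 1) * Real.exp w) (a * (c + s2)) := by
    intro a ha c hc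
    have ha1 : 1 ≤ a := (hA a ha).1.one_lt.le
    have hc1 : 1 ≤ c := (hC c hc).1
    obtain ⟨b1, b2⟩ := haV a ha
    have k1 := cmp_up (a := a) (c := c) (H := H) (H2 := (H + 1) * Real.exp w) (s := s2)
      (by
        calc H < H + 1 := by linarith
          _ = Real.exp V * s2 := by rw [← hs2V]; ring
          _ ≤ a * s2 := mul_le_mul_of_nonneg_right b1 hs20)
      (by
        calc (a : ℝ) * s2 ≤ Real.exp V * Real.exp w * s2 := mul_le_mul_of_nonneg_right b2 hs20
          _ = (s2 * Real.exp V) * Real.exp w := by ring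
          _ = _ := by rw [hs2V]) hH0.le
    have k2 := (log_shift ha1 hc1 hs20 (hsc s2 (by rw [hs2V]; linarith) c hc) (hlogac a ha c hc)).1
    have k3 : 0 ≤ Real.log ((a * c : ℕ) : ℝ) := by linarith [hlogac a ha c hc]
    unfold ZH fR
    rw [div_le_iff₀ hH0]
    have e : (1 + 1 / H) * Real.exp w *
        (((PH ((H + 1) * Real.exp w) (a * (c + s2))).card : ℝ) * Real.log (a * (c + s2)) /
          ((H + 1) * Real.exp w)) * H =
        ((PH ((H + 1) * Real.exp w) (a * (c + s2))).card : ℝ) * Real.log (a * (c + s2)) := by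
      field_simp
    rw [e]
    exact mul_le_mul k1 k2 k3 (Nat.cast_nonneg _)
  -- sums
  obtain ⟨Q, hQ⟩ : ∃ Q : ℝ, Q = (A.card : ℝ) * C.card := ⟨_, rfl⟩
  have hsplit : ∀ f : ℕ → ℕ → ℝ, ∑ a ∈ A, ∑ c ∈ C, (f a c - 1) = ∑ a ∈ A, ∑ c ∈ C, f a c - Q := by
    intro f
    simp_rw [sum_sub_distrib]
    simp [hQ]
  rw [hsplit (fun a c => ZH (H * Real.exp (-w)) (a * (c + s1))), ← hQ, abs_le] at R1
  rw [hsplit (fun a c => ZH ((H + 1) * Real.exp w) (a * (c + s2))), ← hQ, abs_le] at R2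
  rw [hsplit (fun a c => fR H (a * c)), ← hQ]
  rw [← hQ] at hAC0
  have hs1 : ∑ a ∈ A, ∑ c ∈ C, ZH (H * Real.exp (-w)) (a * (c + s1)) ≤
      Real.exp w * (1 + δ / 800) * ∑ a ∈ A, ∑ c ∈ C, fR H (a * c) := by
    rw [mul_sum]
    refine sum_le_sum fun a ha => ?_
    rw [mul_sum]
    exact sum_le_sum fun c hc => hcmp1 a ha c hc
  have hs2 : ∑ a ∈ A, ∑ c ∈ C, fR H (a * c) ≤
      (1 + 1 / H) * Real.exp w * ∑ a ∈ A, ∑ c ∈ C, ZH ((H + 1) * Real.exp w) (a * (c + s2)) := by
    rw [mul_sum]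
    refine sum_le_sum fun a ha => ?_
    rw [mul_sum]
    exact sum_le_sum fun c hc => hcmp2 a ha c hc
  have hfac1 : Real.exp w * (1 + δ / 800) ≤ 1 + δ / 100 := by
    have : Real.exp w ≤ 1 + δ / 200 := by linarith
    nlinarith
  have hHinv : 1 / H ≤ δ / 800 := by
    rw [div_le_div_iff₀ hH0 (by norm_num)]
    have h1 : 800 / δ ≤ H := by linarith
    rw [div_le_iff₀ hδ] at h1
    linarith
  have hfac2 : (1 + 1 / H) * Real.exp w ≤ 1 + δ / 100 := by
    have : Real.exp w ≤ 1 + δ / 200 := by linarith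
    have h0 : 0 < 1 / H := by positivity
    nlinarith
  obtain ⟨X, hX⟩ : ∃ X : ℝ, X = ∑ a ∈ A, ∑ c ∈ C, fR H (a * c) := ⟨_, rfl⟩
  rw [← hX] at hs1 hs2 ⊢
  obtain ⟨X1, hX1⟩ : ∃ X1 : ℝ, X1 = ∑ a ∈ A, ∑ c ∈ C, ZH (H * Real.exp (-w)) (a * (c + s1)) := ⟨_, rfl⟩
  obtain ⟨X2, hX2⟩ : ∃ X2 : ℝ, X2 = ∑ a ∈ A, ∑ c ∈ C, ZH ((H + 1) * Real.exp w) (a * (c + s2)) := ⟨_, rfl⟩
  rw [← hX1] at hs1 R1
  rw [← hX2] at hs2 R2
  have hX0 : 0 ≤ X := by
    rw [hX]
    apply sum_nonneg
    intro a ha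
    apply sum_nonneg
    intro c hc
    unfold fR
    have k3 : 0 ≤ Real.log ((a * c : ℕ) : ℝ) := by linarith [hlogac a ha c hc]
    positivity
  have hX20 : 0 ≤ X2 := by
    have : 0 ≤ Q - δ / 4 * Q := by nlinarith
    linarith [R2.1]
  have u1 : X1 ≤ (1 + δ / 100) * X := hs1.trans (mul_le_mul_of_nonneg_right hfac1 hX0)
  have u2 : X ≤ (1 + δ / 100) * X2 := hs2.trans (mul_le_mul_of_nonneg_right hfac2 hX20)
  rw [abs_le]
  constructor
  · have h1 : (1 - δ / 4) * Q ≤ (1 + δ / 100) * X := by linarith [R1.1]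
    have h2 : (1 + δ / 100) * ((1 - δ) * Q) ≤ (1 - δ / 4) * Q := by
      have : (1 + δ / 100) * (1 - δ) ≤ 1 - δ / 4 := by nlinarith
      calc (1 + δ / 100) * ((1 - δ) * Q) = ((1 + δ / 100) * (1 - δ)) * Q := by ring
        _ ≤ _ := mul_le_mul_of_nonneg_right this hAC0
    have h3 := h2.trans h1
    have h4 : (1 - δ) * Q ≤ X := le_of_mul_le_mul_left h3 (by positivity)
    linarith
  · have h1 : X ≤ (1 + δ / 100) * ((1 + δ / 4) * Q) := by
      refine u2.trans (mul_le_mul_of_nonneg_left ?_ (by positivity))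
      linarith [R2.2]
    have h2 : (1 + δ / 100) * ((1 + δ / 4) * Q) ≤ (1 + δ) * Q := by
      have : (1 + δ / 100) * (1 + δ / 4) ≤ 1 + δ := by nlinarith
      calc (1 + δ / 100) * ((1 + δ / 4) * Q) = ((1 + δ / 100) * (1 + δ / 4)) * Q := by ring
        _ ≤ _ := mul_le_mul_of_nonneg_right this hAC0
    linarith

end Pool.Agent.X20.MF
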