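import Pool.Agent.X20.MF.Bil

/-! Decomposition of the region `p m ≤ N` into blocks (helper20). -/

set_option autoImplicit false

namespace Pool.Agent.X20.MF
open Finset

/-- the number of the logarithmic window of `n` -/
noncomputable def idx (w : ℝ) (n : ℕ) : ℕ := ⌊Real.log n / w⌋₊

lemma idx_low {w : ℝ} (hw : 0 < w) {n : ℕ} : (idx w n : ℝ) * w ≤ Real.log n := by
  have h : 0 ≤ Real.log n / w := div_nonneg (Real.log_natCast_nonneg n) hw.le
  have := Nat.floor_le h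
  rw [le_div_iff₀ hw] at this
  exact this

lemma idx_high {w : ℝ} (hw : 0 < w) {n : ℕ} : Real.log n < ((idx w n : ℝ) + 1) * w := by
  have := Nat.lt_floor_add_one (Real.log n / w)
  rw [div_lt_iff₀ hw] at this
  exact this

lemma count_le (p : ℕ) (hp : 0 < p) (x : ℝ) (hx : 0 ≤ x) (M : ℕ) :
    (((Icc 1 M).filter (fun m : ℕ => (p : ℝ) * m ≤ x)).card : ℝ) ≤ x / p := by
  have hpr : (0 : ℝ) < p := by exact_mod_cast hp
  have h : (Icc 1 M).filter (fun m : ℕ => (p : ℝ) * m ≤ x) ⊆ Icc 1 ⌊x / p⌋₊ := by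
    intro m hm
    rw [mem_filter, mem_Icc] at hm
    rw [mem_Icc]
    refine ⟨hm.1.1, Nat.le_floor ?_⟩
    rw [le_div_iff₀ hpr]
    linarith [hm.2]
  have h1 := card_le_card h
  rw [Nat.card_Icc, Nat.add_sub_cancel] at h1
  calc (((Icc 1 M).filter (fun m : ℕ => (p : ℝ) * m ≤ x)).card : ℝ) ≤ (⌊x / p⌋₊ : ℝ) := by exact_mod_cast h1
    _ ≤ x / p := Nat.floor_le (by positivity)

lemma count_top (p : ℕ) (hp : 0 < p) (x y : ℝ) (hx : 0 ≤ x) (hxy : x ≤ y) (M : ℕ) :
    (((Icc 1 M).filter (fun m : ℕ => x < (p : ℝ) * m ∧ (p : ℝ) * m ≤ y)).card : ℝ) ≤ (y - x) / p + 1 := by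
  have hpr : (0 : ℝ) < p := by exact_mod_cast hp
  have h : (Icc 1 M).filter (fun m : ℕ => x < (p : ℝ) * m ∧ (p : ℝ) * m ≤ y) ⊆ Ioc ⌊x / p⌋₊ ⌊y / p⌋₊ := by
    intro m hm
    rw [mem_filter, mem_Icc] at hm
    rw [mem_Ioc]
    constructor
    · rw [Nat.floor_lt (by positivity), div_lt_iff₀ hpr]
      linarith [hm.2.1]
    · apply Nat.le_floor
      rw [le_div_iff₀ hpr]
      linarith [hm.2.2]
  have h1 := card_le_card h
  rw [Nat.card_Ioc] at h1
  have h2 : ⌊x / p⌋₊ ≤ ⌊y / p⌋₊ := Nat.floor_mono (div_le_div_of_nonneg_right hxy hpr.le)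
  have h3 : (((Icc 1 M).filter (fun m : ℕ => x < (p : ℝ) * m ∧ (p : ℝ) * m ≤ y)).card : ℝ) ≤
      (⌊y / p⌋₊ : ℝ) - ⌊x / p⌋₊ := by
    rw [← Nat.cast_sub h2]
    exact_mod_cast h1
  have h4 : (⌊y / p⌋₊ : ℝ) ≤ y / p := Nat.floor_le (by have := hx.trans hxy; positivity)
  have h5 := Nat.lt_floor_add_one (x / (p : ℝ))
  rw [sub_div]
  linarith

theorem blocks {N : ℕ} (hN : 1 ≤ N) (w T δ L : ℝ) (hw : 0 < w) (hδ : 0 ≤ δ) (S : Finset ℕ)
    (hS : ∀ p ∈ S, 0 < p) (F : ℕ → ℝ) (hF : ∀ n ∈ Icc 1 N, |F n| ≤ L)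
    (g u : ℕ → ℂ) (hg : ∀ n, ‖g n‖ ≤ 1) (hu : ∀ n, ‖u n‖ ≤ 1)
    (hblock : ∀ j k : ℕ, (∃ p ∈ S, idx w p = j) → ((j : ℝ) + k + 2) * w ≤ Real.log N →
      Real.log N - T ≤ ((j : ℝ) + k) * w → ∀ A' : Finset ℕ, A' ⊆ S.filter (fun p => idx w p = j) →
      ∀ C' : Finset ℕ, C' ⊆ (Icc 1 N).filter (fun m => idx w m = k) →
      |∑ a ∈ A', ∑ c ∈ C', F (a * c)| ≤
        δ * ((S.filter (fun p => idx w p = j)).card * ((Icc 1 N).filter (fun m => idx w m = k)).card)) :
    ‖∑ p ∈ S, ∑ m ∈ Icc 1 (N / p), u p * g m * (F (p * m) : ℂ)‖ ≤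
      16 * δ * (N * ∑ p ∈ S, (1 : ℝ) / p) +
      L * ((Real.exp (2 * w - T) + 2 * w) * (N * ∑ p ∈ S, (1 : ℝ) / p) + S.card) := by
  classical
  have hN0 : (0 : ℝ) < N := by exact_mod_cast hN
  have hL0 : 0 ≤ L := (abs_nonneg _).trans (hF 1 (mem_Icc.2 ⟨le_rfl, hN⟩))
  obtain ⟨P, hP⟩ : ∃ P : Finset (ℕ × ℕ), P = (S ×ˢ Icc 1 N).filter (fun x => x.1 * x.2 ≤ N) := ⟨_, rfl⟩
  obtain ⟨X, hX⟩ : ∃ X : ℕ × ℕ → ℂ, X = fun x => u x.1 * g x.2 * (F (x.1 * x.2) : ℂ) := ⟨_, rfl⟩
  obtain ⟨Cd, hCd⟩ : ∃ Cd : ℕ × ℕ → Prop, Cd = fun x => ((x.1 : ℝ) + x.2 + 2) * w ≤ Real.log N ∧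
      Real.log N - T ≤ ((x.1 : ℝ) + x.2) * w := ⟨_, rfl⟩
  obtain ⟨i2, hi2⟩ : ∃ i2 : ℕ × ℕ → ℕ × ℕ, i2 = fun x => (idx w x.1, idx w x.2) := ⟨_, rfl⟩
  have e0 : ∀ f : ℕ → ℕ → ℂ, ∑ p ∈ S, ∑ m ∈ Icc 1 (N / p), f p m = ∑ x ∈ P, f x.1 x.2 := by
    intro f
    rw [hP, sum_filter, sum_product]
    apply sum_congr rfl
    intro p hp
    rw [← sum_filter]
    apply sum_congr _ fun _ _ => rfl
    ext m
    rw [mem_Icc, mem_filter, mem_Icc, Nat.le_div_iff_mul_le (hS p hp)]
    constructor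
    · rintro ⟨h1, h2⟩
      have : m * 1 ≤ m * p := Nat.mul_le_mul_left _ (hS p hp)
      rw [mul_comm] at h2
      refine ⟨⟨h1, ?_⟩, h2⟩
      rw [mul_comm p m] at h2
      omega
    · rintro ⟨⟨h1, _⟩, h2⟩
      rw [mul_comm]
      exact ⟨h1, h2⟩
  have hPcard : (P.card : ℝ) ≤ N * ∑ p ∈ S, (1 : ℝ) / p := by
    have h1 : (P.card : ℝ) = ∑ p ∈ S, (((Icc 1 N).filter (fun m : ℕ => p * m ≤ N)).card : ℝ) := by
      rw [hP, card_filter, sum_product]
      push_cast
      apply sum_congr rfl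
      intro p _
      rw [card_filter]
      push_cast
      rfl
    rw [h1, mul_sum]
    apply sum_le_sum
    intro p hp
    have h2 := count_le p (hS p hp) N hN0.le N
    calc (((Icc 1 N).filter (fun m : ℕ => p * m ≤ N)).card : ℝ)
        = (((Icc 1 N).filter (fun m : ℕ => (p : ℝ) * m ≤ N)).card : ℝ) := by
          congr 2
          apply filter_congr
          intro m _
          norm_cast
      _ ≤ N / p := h2
      _ = _ := by ring
  rw [e0 (fun p m => u p * g m * (F (p * m) : ℂ))]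
  have e1 : ∑ x ∈ P, u x.1 * g x.2 * (F (x.1 * x.2) : ℂ) =
      ∑ x ∈ P.filter (fun x => Cd (i2 x)), X x + ∑ x ∈ P.filter (fun x => ¬ Cd (i2 x)), X x := by
    rw [sum_filter_add_sum_filter_not, hX]
  rw [e1]
  -- elements of blocks
  have hlog : ∀ p ∈ S, ∀ m : ℕ, 1 ≤ m → Real.log ((p * m : ℕ) : ℝ) = Real.log p + Real.log m := by
    intro p hp m hm
    have h1 : (0 : ℝ) < p := by exact_mod_cast hS p hp
    have h2 : (0 : ℝ) < m := by exact_mod_cast hm
    rw [Nat.cast_mul, Real.log_mul h1.ne' h2.ne']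
  have hgoodmem : ∀ x : ℕ × ℕ, x ∈ P.filter (fun x => Cd (i2 x)) ↔ x.1 ∈ S ∧ x.2 ∈ Icc 1 N ∧ Cd (i2 x) := by
    intro x
    rw [mem_filter, hP, mem_filter, mem_product]
    constructor
    · rintro ⟨⟨⟨h1, h2⟩, _⟩, h4⟩
      exact ⟨h1, h2, h4⟩
    · rintro ⟨h1, h2, h4⟩
      refine ⟨⟨⟨h1, h2⟩, ?_⟩, h4⟩
      have h5 := (mem_Icc.1 h2).1
      rw [hCd, hi2] at h4
      simp only at h4
      have h6 := idx_high hw (n := x.1)
      have h7 := idx_high hw (n := x.2)
      have h8 : Real.log ((x.1 * x.2 : ℕ) : ℝ) < Real.log N := by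
        rw [hlog x.1 h1 x.2 h5]
        have := h4.1
        nlinarith
      have h9 : (0 : ℝ) < ((x.1 * x.2 : ℕ) : ℝ) := by
        have := hS x.1 h1
        exact_mod_cast Nat.mul_pos this h5
      rw [Real.log_lt_log_iff h9 hN0] at h8
      exact_mod_cast h8.le
  -- the good part
  have hgood : ‖∑ x ∈ P.filter (fun x => Cd (i2 x)), X x‖ ≤ 16 * δ * (N * ∑ p ∈ S, (1 : ℝ) / p) := by
    obtain ⟨G, hG⟩ : ∃ G : Finset (ℕ × ℕ), G = P.filter (fun x => Cd (i2 x)) := ⟨_, rfl⟩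
    rw [← hG]
    have hfib : ∑ x ∈ G, X x = ∑ y ∈ G.image i2, ∑ x ∈ G.filter (fun x => i2 x = y), X x := by
      rw [sum_fiberwise_of_maps_to]
      intro x hx
      exact mem_image_of_mem _ hx
    have hcard : (G.card : ℝ) = ∑ y ∈ G.image i2, ((G.filter (fun x => i2 x = y)).card : ℝ) := by
      rw [card_eq_sum_card_fiberwise (f := i2) (t := G.image i2) (fun x hx => mem_image_of_mem _ hx)]
      push_cast
      rfl
    rw [hfib]
    have hterm : ∀ y ∈ G.image i2, ‖∑ x ∈ G.filter (fun x => i2 x = y), X x‖ ≤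
        16 * δ * ((G.filter (fun x => i2 x = y)).card : ℝ) := by
      intro y hy
      rw [mem_image] at hy
      obtain ⟨x₀, hx₀, hx₀y⟩ := hy
      rw [hG, hgoodmem] at hx₀
      obtain ⟨g1, g2, g3⟩ := hx₀
      rw [hx₀y] at g3
      have hset : G.filter (fun x => i2 x = y) =
          (S.filter (fun p => idx w p = y.1)) ×ˢ ((Icc 1 N).filter (fun m => idx w m = y.2)) := by
        ext x
        rw [mem_filter, hG, hgoodmem, mem_product, mem_filter, mem_filter]
        constructor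
        · rintro ⟨⟨h1, h2, _⟩, h4⟩
          rw [hi2] at h4
          simp only at h4
          rw [← h4]
          exact ⟨⟨h1, rfl⟩, h2, rfl⟩
        · rintro ⟨⟨h1, h2⟩, h3, h4⟩
          have h5 : i2 x = y := by
            rw [hi2]
            simp only
            rw [h2, h4]
          exact ⟨⟨h1, h3, by rw [h5]; exact g3⟩, h5⟩
      rw [hset, sum_product, card_product]
      rw [hCd] at g3
      have hj : ∃ p ∈ S, idx w p = y.1 := ⟨x₀.1, g1, by rw [← hx₀y, hi2]⟩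
      have hb := hblock y.1 y.2 hj g3.1 g3.2
      have h := bil (F := fun a c => F (a * c)) hb (u := u) (v := g) (fun a _ => hu a) (fun c _ => hg c)
      rw [hX]
      simp only
      refine h.trans (le_of_eq ?_)
      push_cast
      ring
    calc ‖∑ y ∈ G.image i2, ∑ x ∈ G.filter (fun x => i2 x = y), X x‖
        ≤ ∑ y ∈ G.image i2, ‖∑ x ∈ G.filter (fun x => i2 x = y), X x‖ := norm_sum_le _ _
      _ ≤ ∑ y ∈ G.image i2, 16 * δ * ((G.filter (fun x => i2 x = y)).card : ℝ) := sum_le_sum hterm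
      _ = 16 * δ * G.card := by rw [← mul_sum, ← hcard]
      _ ≤ 16 * δ * P.card := by
          apply mul_le_mul_of_nonneg_left _ (by positivity)
          rw [hG]
          exact_mod_cast card_filter_le _ _
      _ ≤ _ := by
          apply mul_le_mul_of_nonneg_left hPcard (by positivity)
  -- the bad part
  have hbadcard : ((P.filter (fun x => ¬ Cd (i2 x))).card : ℝ) ≤
      (Real.exp (2 * w - T) + 2 * w) * (N * ∑ p ∈ S, (1 : ℝ) / p) + S.card := by
    have h1 : ((P.filter (fun x => ¬ Cd (i2 x))).card : ℝ) ≤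
        ∑ p ∈ S, ((((Icc 1 N).filter (fun m : ℕ => (p : ℝ) * m ≤ Real.exp (2 * w - T) * N)).card : ℝ) +
          (((Icc 1 N).filter (fun m : ℕ => Real.exp (-(2 * w)) * N < (p : ℝ) * m ∧ (p : ℝ) * m ≤ N)).card : ℝ)) := by
      have h2 : P.filter (fun x => ¬ Cd (i2 x)) ⊆ (S.sigma (fun p =>
          (Icc 1 N).filter (fun m : ℕ => (p : ℝ) * m ≤ Real.exp (2 * w - T) * N) ∪
          (Icc 1 N).filter (fun m : ℕ => Real.exp (-(2 * w)) * N < (p : ℝ) * m ∧ (p : ℝ) * m ≤ N))).image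
          (fun x : Σ _ : ℕ, ℕ => (x.1, x.2)) := by
        intro x hx
        rw [mem_filter, hP, mem_filter, mem_product] at hx
        obtain ⟨⟨⟨a1, a2⟩, a3⟩, a4⟩ := hx
        rw [mem_image]
        refine ⟨⟨x.1, x.2⟩, ?_, rfl⟩
        rw [mem_sigma]
        refine ⟨a1, ?_⟩
        rw [mem_union, mem_filter, mem_filter]
        have b1 := (mem_Icc.1 a2).1
        have hpos : (0 : ℝ) < (x.1 : ℝ) * x.2 := by
          have := hS x.1 a1
          have h3 : (0 : ℝ) < x.1 := by exact_mod_cast this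
          have h4 : (0 : ℝ) < x.2 := by exact_mod_cast b1
          positivity
        have hl := hlog x.1 a1 x.2 b1
        rw [Nat.cast_mul] at hl
        have l1 := idx_high hw (n := x.1)
        have l2 := idx_high hw (n := x.2)
        have l3 := idx_low hw (n := x.1)
        have l4 := idx_low hw (n := x.2)
        rw [hCd, hi2] at a4
        simp only at a4
        rw [not_and_or, not_le, not_le] at a4
        rcases a4 with h | h
        · right
          refine ⟨a2, ?_, by exact_mod_cast a3⟩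
          have h5 : Real.log (Real.exp (-(2 * w)) * N) < Real.log ((x.1 : ℝ) * x.2) := by
            rw [Real.log_mul (Real.exp_pos _).ne' hN0.ne', Real.log_exp, hl]
            nlinarith
          exact (Real.log_lt_log_iff (by positivity) hpos).1 h5
        · left
          refine ⟨a2, ?_⟩
          have h5 : Real.log ((x.1 : ℝ) * x.2) < Real.log (Real.exp (2 * w - T) * N) := by
            rw [Real.log_mul (Real.exp_pos _).ne' hN0.ne', Real.log_exp, hl]
            nlinarith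
          exact ((Real.log_lt_log_iff hpos (by positivity)).1 h5).le
      have h3 := (card_le_card h2).trans card_image_le
      rw [card_sigma] at h3
      refine (Nat.cast_le.2 h3).trans ?_
      rw [Nat.cast_sum]
      apply sum_le_sum
      intro p _
      rw [← Nat.cast_add]
      exact Nat.cast_le.2 (card_union_le _ _)
    refine h1.trans ?_
    have h4 : ∀ p ∈ S, ((((Icc 1 N).filter (fun m : ℕ => (p : ℝ) * m ≤ Real.exp (2 * w - T) * N)).card : ℝ) +
          (((Icc 1 N).filter (fun m : ℕ => Real.exp (-(2 * w)) * N < (p : ℝ) * m ∧ (p : ℝ) * m ≤ N)).card : ℝ)) ≤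
          (Real.exp (2 * w - T) + 2 * w) * (N * (1 / (p : ℝ))) + 1 := by
      intro p hp
      have hpr : (0 : ℝ) < p := by exact_mod_cast hS p hp
      have c1 := count_le p (hS p hp) (Real.exp (2 * w - T) * N) (by positivity) N
      have hexp : Real.exp (-(2 * w)) ≤ 1 := by
        rw [Real.exp_le_one_iff]; linarith
      have c2 := count_top p (hS p hp) (Real.exp (-(2 * w)) * N) N (by positivity) (by nlinarith) N
      have hexp2 : 1 - 2 * w ≤ Real.exp (-(2 * w)) := by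
        have := Real.add_one_le_exp (-(2 * w))
        linarith
      have c3 : ((N : ℝ) - Real.exp (-(2 * w)) * N) / p ≤ 2 * w * (N * (1 / (p : ℝ))) := by
        rw [show 2 * w * (N * (1 / (p : ℝ))) = (2 * w * N) / p by ring]
        apply div_le_div_of_nonneg_right _ hpr.le
        nlinarith
      have c4 : Real.exp (2 * w - T) * N / p = Real.exp (2 * w - T) * (N * (1 / (p : ℝ))) := by ring
      rw [c4] at c1
      linarith
    refine (sum_le_sum h4).trans (le_of_eq ?_)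
    rw [sum_add_distrib, sum_const, nsmul_eq_mul, mul_one, ← mul_sum, ← mul_sum]
  have hbad : ‖∑ x ∈ P.filter (fun x => ¬ Cd (i2 x)), X x‖ ≤
      L * ((Real.exp (2 * w - T) + 2 * w) * (N * ∑ p ∈ S, (1 : ℝ) / p) + S.card) := by
    calc ‖∑ x ∈ P.filter (fun x => ¬ Cd (i2 x)), X x‖
        ≤ ∑ x ∈ P.filter (fun x => ¬ Cd (i2 x)), ‖X x‖ := norm_sum_le _ _
      _ ≤ ∑ _x ∈ P.filter (fun x => ¬ Cd (i2 x)), L := by
          apply sum_le_sum
          intro x hx
          rw [mem_filter, hP, mem_filter, mem_product] at hx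
          obtain ⟨⟨⟨a1, a2⟩, a3⟩, _⟩ := hx
          rw [hX]
          simp only
          rw [norm_mul, norm_mul, Complex.norm_real, Real.norm_eq_abs]
          have b1 := (mem_Icc.1 a2).1
          have h1 : |F (x.1 * x.2)| ≤ L := by
            apply hF
            rw [mem_Icc]
            exact ⟨Nat.mul_pos (hS _ a1) b1, a3⟩
          have h2 : ‖u x.1‖ * ‖g x.2‖ ≤ 1 := mul_le_one₀ (hu _) (norm_nonneg _) (hg _)
          calc ‖u x.1‖ * ‖g x.2‖ * |F (x.1 * x.2)| ≤ 1 * L := mul_le_mul h2 h1 (abs_nonneg _) zero_le_one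
            _ = L := one_mul L
      _ = ((P.filter (fun x => ¬ Cd (i2 x))).card : ℝ) * L := by rw [sum_const, nsmul_eq_mul]
      _ ≤ _ := by
          rw [mul_comm]
          exact mul_le_mul_of_nonneg_left hbadcard hL0
  exact (norm_add_le _ _).trans (add_le_add hgood hbad)

end Pool.Agent.X20.MF
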