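import Pool.Agent.X20.MF.Bil
import Pool.Agent.H755R4.TK3

/-! The reduction of sums with multiplicative coefficients to bilinear sums (helper20). -/

set_option autoImplicit false

namespace Pool.Agent.X20.MF
open Finset

/-- the multiples of `p` -/
lemma sum_mult (p N : ℕ) (hp : 0 < p) (f : ℕ → ℂ) :
    ∑ n ∈ (Icc 1 N).filter (fun n => p ∣ n), f n = ∑ m ∈ Icc 1 (N / p), f (p * m) := by
  symm
  apply sum_nbij' (fun m => p * m) (fun n => n / p)
  · intro m hm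
    rw [mem_Icc] at hm
    rw [mem_filter, mem_Icc]
    have h1 : p * m ≤ p * (N / p) := Nat.mul_le_mul_left _ hm.2
    have h2 : p * (N / p) ≤ N := Nat.mul_div_le N p
    exact ⟨⟨Nat.mul_pos hp hm.1, h1.trans h2⟩, dvd_mul_right _ _⟩
  · intro n hn
    rw [mem_filter, mem_Icc] at hn
    rw [mem_Icc]
    exact ⟨Nat.div_pos (Nat.le_of_dvd hn.1.1 hn.2) hp, Nat.div_le_div_right hn.1.2⟩
  · intro m _
    exact Nat.mul_div_cancel_left m hp
  · intro n hn
    rw [mem_filter] at hn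
    exact Nat.mul_div_cancel' hn.2
  · intro m _
    rfl

theorem katai {N : ℕ} (S : Finset ℕ) (hS : ∀ p ∈ S, p.Prime) (hS2 : S.card ^ 2 ≤ N)
    (hW : 1 ≤ ∑ p ∈ S, (1 : ℝ) / p) (F : ℕ → ℝ) (L : ℝ) (hF : ∀ n ∈ Icc 1 N, |F n| ≤ L)
    (g u : ℕ → ℂ) (hg : ∀ n, ‖g n‖ ≤ 1) (hu : ∀ n, ‖u n‖ ≤ 1)
    (hmul : ∀ p ∈ S, ∀ m : ℕ, 1 ≤ m → ¬ p ∣ m → g (p * m) = u p * g m) (B : ℝ)
    (hB : ‖∑ p ∈ S, ∑ m ∈ Icc 1 (N / p), u p * g m * (F (p * m) : ℂ)‖ ≤ B) :
    (∑ p ∈ S, (1 : ℝ) / p) * ‖∑ n ∈ Icc 1 N, g n * (F n : ℂ)‖ ≤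
      2 * L * N * √(∑ p ∈ S, (1 : ℝ) / p) + B + 2 * L * (N * ∑ p ∈ S, (1 : ℝ) / p ^ 2) := by
  classical
  obtain ⟨W, hWd⟩ : ∃ W : ℝ, W = ∑ p ∈ S, (1 : ℝ) / p := ⟨_, rfl⟩
  rw [← hWd] at hW ⊢
  have hW0 : 0 < W := by linarith
  have hN0 : (0 : ℝ) ≤ N := Nat.cast_nonneg N
  have hSne : S.Nonempty := by
    rw [nonempty_iff_ne_empty]
    rintro rfl
    rw [sum_empty] at hWd
    linarith
  have hN1 : 1 ≤ N := by
    have : 0 < S.card := card_pos.2 hSne
    have h2 : 0 < S.card ^ 2 := by positivity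
    omega
  have hL0 : 0 ≤ L := (abs_nonneg _).trans (hF 1 (mem_Icc.2 ⟨le_rfl, hN1⟩))
  -- the additive function
  obtain ⟨om, hom⟩ : ∃ om : ℕ → ℝ, om = fun n => ∑ p ∈ S, if p ∣ n then (1 : ℝ) else 0 := ⟨_, rfl⟩
  have hvar : ∑ n ∈ Icc 1 N, (om n - W) ^ 2 ≤ 4 * N * W := by
    have h := Pool.Agent.H755R4.tk_var (b := 0) (Y := N) S hS hS2 (by rw [← hWd]; exact hW)
    rw [zero_add, ← hWd] at h
    have e : Ioc 0 N = Icc 1 N := by
      ext n; rw [mem_Ioc, mem_Icc]; omega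
    rw [e] at h
    rw [hom]
    exact h
  have hdev : ∑ n ∈ Icc 1 N, |om n - W| ≤ 2 * N * √W := by
    have h1 := Finset.sum_mul_sq_le_sq_mul_sq (Icc 1 N) (fun n => |om n - W|) (fun _ => (1 : ℝ))
    simp only [mul_one, one_pow, sum_const, nsmul_eq_mul, Nat.card_Icc, Nat.add_sub_cancel, sq_abs] at h1
    have h2 : (∑ n ∈ Icc 1 N, |om n - W|) ^ 2 ≤ (2 * N * √W) ^ 2 := by
      refine h1.trans ?_
      rw [mul_pow, Real.sq_sqrt hW0.le]
      calc (∑ n ∈ Icc 1 N, (om n - W) ^ 2) * (N : ℝ) ≤ (4 * N * W) * N := by gcongr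
        _ = _ := by ring
    exact le_of_sq_le_sq h2 (by positivity)
  -- the sum with the weight
  have key : ∑ n ∈ Icc 1 N, g n * (F n : ℂ) * (om n : ℂ) =
      ∑ p ∈ S, ∑ m ∈ Icc 1 (N / p), g (p * m) * (F (p * m) : ℂ) := by
    have e1 : ∀ n, g n * (F n : ℂ) * (om n : ℂ) = ∑ p ∈ S, if p ∣ n then g n * (F n : ℂ) else 0 := by
      intro n
      rw [hom]
      simp only
      push_cast
      rw [mul_sum]
      apply sum_congr rfl
      intro p _
      split_ifs <;> simp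
    rw [sum_congr rfl fun n _ => e1 n, sum_comm]
    apply sum_congr rfl
    intro p hp
    rw [← sum_filter, sum_mult p N (hS p hp).pos (fun n => g n * (F n : ℂ))]
  have hsplit : (W : ℂ) * ∑ n ∈ Icc 1 N, g n * (F n : ℂ) =
      ∑ p ∈ S, ∑ m ∈ Icc 1 (N / p), u p * g m * (F (p * m) : ℂ) +
      ∑ p ∈ S, ∑ m ∈ Icc 1 (N / p), (g (p * m) - u p * g m) * (F (p * m) : ℂ) -
      ∑ n ∈ Icc 1 N, g n * (F n : ℂ) * ((om n : ℂ) - W) := by
    have e2 : ∑ n ∈ Icc 1 N, g n * (F n : ℂ) * ((om n : ℂ) - W) =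
        ∑ n ∈ Icc 1 N, g n * (F n : ℂ) * (om n : ℂ) - (W : ℂ) * ∑ n ∈ Icc 1 N, g n * (F n : ℂ) := by
      rw [mul_sum, ← sum_sub_distrib]
      apply sum_congr rfl
      intro n _
      ring
    rw [e2, key, ← sum_add_distrib]
    have e3 : ∀ p ∈ S, (∑ m ∈ Icc 1 (N / p), u p * g m * (F (p * m) : ℂ) +
        ∑ m ∈ Icc 1 (N / p), (g (p * m) - u p * g m) * (F (p * m) : ℂ)) =
        ∑ m ∈ Icc 1 (N / p), g (p * m) * (F (p * m) : ℂ) := by
      intro p _
      rw [← sum_add_distrib]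
      apply sum_congr rfl
      intro m _
      ring
    rw [sum_congr rfl e3]
    ring
  have hmain : W * ‖∑ n ∈ Icc 1 N, g n * (F n : ℂ)‖ = ‖(W : ℂ) * ∑ n ∈ Icc 1 N, g n * (F n : ℂ)‖ := by
    rw [norm_mul, Complex.norm_real, Real.norm_of_nonneg hW0.le]
  -- error from the primes dividing the cofactor
  have herr : ‖∑ p ∈ S, ∑ m ∈ Icc 1 (N / p), (g (p * m) - u p * g m) * (F (p * m) : ℂ)‖ ≤
      2 * L * (N * ∑ p ∈ S, (1 : ℝ) / p ^ 2) := by
    rw [mul_sum, mul_sum]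
    refine (norm_sum_le _ _).trans (sum_le_sum fun p hp => ?_)
    have hp0 : 0 < p := (hS p hp).pos
    have hpr : (0 : ℝ) < p := by exact_mod_cast hp0
    calc ‖∑ m ∈ Icc 1 (N / p), (g (p * m) - u p * g m) * (F (p * m) : ℂ)‖
        ≤ ∑ m ∈ Icc 1 (N / p), ‖(g (p * m) - u p * g m) * (F (p * m) : ℂ)‖ := norm_sum_le _ _
      _ ≤ ∑ m ∈ Icc 1 (N / p), (if p ∣ m then 2 * L else 0) := by
          apply sum_le_sum
          intro m hm
          rw [mem_Icc] at hm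
          split_ifs with hd
          · rw [norm_mul, Complex.norm_real, Real.norm_eq_abs]
            have h1 : ‖g (p * m) - u p * g m‖ ≤ 2 := by
              refine (norm_sub_le _ _).trans ?_
              rw [norm_mul]
              have := mul_le_mul (hu p) (hg m) (norm_nonneg _) zero_le_one
              linarith [hg (p * m)]
            have h2 : |F (p * m)| ≤ L := by
              apply hF
              rw [mem_Icc]
              have h1 : p * m ≤ p * (N / p) := Nat.mul_le_mul_left _ hm.2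
              exact ⟨Nat.mul_pos hp0 hm.1, h1.trans (Nat.mul_div_le N p)⟩
            exact mul_le_mul h1 h2 (abs_nonneg _) (by norm_num)
          · rw [hmul p hp m hm.1 hd, sub_self, zero_mul, norm_zero]
      _ = (((Icc 1 (N / p)).filter (fun m => p ∣ m)).card : ℝ) * (2 * L) := by
          rw [← sum_filter, sum_const, nsmul_eq_mul]
      _ ≤ ((N : ℝ) / p ^ 2) * (2 * L) := by
          apply mul_le_mul_of_nonneg_right _ (by positivity)
          have e : ((Icc 1 (N / p)).filter (fun m => p ∣ m)).card = N / p / p := by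
            have : Icc 1 (N / p) = Ioc 0 (N / p) := by
              ext n; rw [mem_Ioc, mem_Icc]; omega
            rw [this, Nat.Ioc_filter_dvd_card_eq_div]
          rw [e]
          calc ((N / p / p : ℕ) : ℝ) ≤ ((N / p : ℕ) : ℝ) / p := Nat.cast_div_le
            _ ≤ ((N : ℝ) / p) / p := by
              apply div_le_div_of_nonneg_right _ hpr.le
              exact Nat.cast_div_le
            _ = _ := by rw [div_div, pow_two]
      _ = _ := by ring
  have hlast : ‖∑ n ∈ Icc 1 N, g n * (F n : ℂ) * ((om n : ℂ) - W)‖ ≤ 2 * L * N * √W := by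
    calc ‖∑ n ∈ Icc 1 N, g n * (F n : ℂ) * ((om n : ℂ) - W)‖
        ≤ ∑ n ∈ Icc 1 N, ‖g n * (F n : ℂ) * ((om n : ℂ) - W)‖ := norm_sum_le _ _
      _ ≤ ∑ n ∈ Icc 1 N, L * |om n - W| := by
          apply sum_le_sum
          intro n hn
          rw [norm_mul, norm_mul, Complex.norm_real, Real.norm_eq_abs]
          have e : (om n : ℂ) - (W : ℂ) = ((om n - W : ℝ) : ℂ) := by push_cast; ring
          rw [e, Complex.norm_real, Real.norm_eq_abs]
          apply mul_le_mul_of_nonneg_right _ (abs_nonneg _)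
          calc ‖g n‖ * |F n| ≤ 1 * L := mul_le_mul (hg n) (hF n hn) (abs_nonneg _) zero_le_one
            _ = L := one_mul L
      _ = L * ∑ n ∈ Icc 1 N, |om n - W| := by rw [mul_sum]
      _ ≤ L * (2 * N * √W) := mul_le_mul_of_nonneg_left hdev hL0
      _ = _ := by ring
  rw [hmain, hsplit]
  refine (norm_sub_le _ _).trans ?_
  have h5 := norm_add_le (∑ p ∈ S, ∑ m ∈ Icc 1 (N / p), u p * g m * (F (p * m) : ℂ))
    (∑ p ∈ S, ∑ m ∈ Icc 1 (N / p), (g (p * m) - u p * g m) * (F (p * m) : ℂ))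
  linarith

end Pool.Agent.X20.MF
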