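import Pool.Agent.X20.MF.BlockR
import Pool.Agent.H357R2.SI.Common
import Pool.Agent.Helper923.PPS.BT

/-! Upper bound for all windows and the asymptotic law in long windows (helper20). -/

set_option autoImplicit false

namespace Pool.Agent.X20.MF
open Finset Filter
open Pool.Agent.H357R2.SI (pc pc_eq_sub pnt pc_window_upper)

lemma floor_add_nat (n : ℕ) {H : ℝ} (hH : 0 ≤ H) : ⌊(n : ℝ) + H⌋₊ = n + ⌊H⌋₊ := by
  rw [add_comm, Nat.floor_add_natCast hH, add_comm]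

lemma fR_eq (H : ℝ) (hH : 0 ≤ H) (n : ℕ) : fR H n = (pc n (n + ⌊H⌋₊) : ℝ) * Real.log n / H := by
  unfold fR pc
  rw [floor_add_nat n hH]

lemma fR_nonneg {H : ℝ} (hH : 0 ≤ H) (n : ℕ) : 0 ≤ fR H n := by
  unfold fR
  have := Real.log_natCast_nonneg n
  positivity

/-- the upper bound -/
lemma fR_bound (ε : ℝ) (hε : 0 < ε) : ∃ (L : ℝ) (N₀ : ℕ), 1 ≤ L ∧ 2 ≤ N₀ ∧ ∀ N : ℕ, N₀ ≤ N → ∀ H : ℝ, (N : ℝ) ^ ε ≤ H →
    ∀ n ∈ Icc 1 N, |fR H n - 1| ≤ L := by
  obtain ⟨C, hC, hBT⟩ := Pool.Agent.Helper923.PPS.brun_titchmarsh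
  have t : Tendsto (fun N : ℕ => (N : ℝ) ^ ε) atTop atTop :=
    (tendsto_rpow_atTop hε).comp tendsto_natCast_atTop_atTop
  obtain ⟨N₁, hN₁⟩ := (t.eventually_ge_atTop 2).exists_forall_of_atTop
  refine ⟨3 * C / ε + 1, max 2 N₁, by
    have : 0 ≤ 3 * C / ε := by positivity
    linarith, le_max_left _ _, fun N hN H hH n hn => ?_⟩
  have hNe : 2 ≤ (N : ℝ) ^ ε := hN₁ N ((le_max_right _ _).trans hN)
  have hN2 : (2 : ℝ) ≤ N := by exact_mod_cast (le_max_left _ _).trans hN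
  have hN0 : (0 : ℝ) < N := by linarith
  have hH2 : 2 ≤ H := hNe.trans hH
  have hH0 : 0 < H := by linarith
  rw [mem_Icc] at hn
  have hn0 : (0 : ℝ) < n := by exact_mod_cast hn.1
  have hnN : (n : ℝ) ≤ N := by exact_mod_cast hn.2
  obtain ⟨M, hM⟩ : ∃ M : ℕ, M = ⌊H⌋₊ + 1 := ⟨_, rfl⟩
  have hM1 : H < M := by rw [hM]; push_cast; exact Nat.lt_floor_add_one H
  have hM2 : (M : ℝ) ≤ H + 1 := by
    rw [hM]; push_cast
    linarith [Nat.floor_le hH0.le]
  have hM2' : 2 ≤ M := by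
    have : (2 : ℝ) < M := by linarith
    exact_mod_cast this.le
  have h1 := hBT n 1 M hM2' (Or.inl rfl)
  have h2 : (pc n (n + ⌊H⌋₊) : ℝ) ≤ C * M / Real.log M := by
    refine le_trans ?_ h1
    unfold pc
    apply Nat.cast_le.2
    apply card_le_card_of_injOn (fun p => p - n)
    · intro p hp
      rw [mem_coe, mem_filter, mem_Ioc] at hp
      simp only [mem_coe, mem_filter, mem_range, mul_one]
      refine ⟨by omega, ?_⟩
      have : n + (p - n) = p := by omega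
      rw [this]; exact hp.2
    · intro p hp q hq h
      rw [mem_coe, mem_filter, mem_Ioc] at hp hq
      simp only at h
      omega
  have hM0 : (0 : ℝ) < M := by linarith
  have hlogM : ε * Real.log N ≤ Real.log M := by
    have h3 : Real.log ((N : ℝ) ^ ε) ≤ Real.log M := Real.log_le_log (by positivity) (by linarith)
    rwa [Real.log_rpow hN0] at h3
  have hlogN : 0 < Real.log N := Real.log_pos (by linarith)
  have hlogn : Real.log n ≤ Real.log N := Real.log_le_log hn0 hnN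
  have hlogn0 : 0 ≤ Real.log (n : ℝ) := Real.log_natCast_nonneg n
  have h4 : fR H n ≤ 3 * C / ε := by
    rw [fR_eq H hH0.le, div_le_iff₀ hH0]
    have hεl : 0 < ε * Real.log N := by positivity
    calc (pc n (n + ⌊H⌋₊) : ℝ) * Real.log n ≤ (C * M / Real.log M) * Real.log N := by
          apply mul_le_mul h2 hlogn hlogn0
          have : 0 < Real.log M := by linarith
          positivity
      _ ≤ (C * M / (ε * Real.log N)) * Real.log N := by
          apply mul_le_mul_of_nonneg_right _ hlogN.le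
          apply div_le_div_of_nonneg_left (by positivity) hεl hlogM
      _ = C * M / ε := by field_simp
      _ ≤ C * (3 * H) / ε := by
          have : (M : ℝ) ≤ 3 * H := by linarith
          gcongr
      _ = _ := by ring
  have h5 := fR_nonneg hH0.le n
  rw [abs_le]
  constructor
  · have : 0 ≤ 3 * C / ε := by positivity
    linarith
  · linarith

/-- long windows -/
lemma fR_long (κ r δ : ℝ) (hκ : 0 < κ) (hκ1 : κ ≤ 1) (hr : 0 < r) (hr1 : r ≤ 1) (hδ : 0 < δ) (hδ1 : δ ≤ 1) :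
    ∃ N₀ : ℕ, ∀ N : ℕ, N₀ ≤ N → ∀ H : ℝ, r * N ≤ H → H ≤ N → ∀ n : ℕ, κ * N ≤ n → n ≤ N →
    |fR H n - 1| ≤ δ := by
  obtain ⟨e, he⟩ : ∃ e : ℝ, e = δ * r / 16 := ⟨_, rfl⟩
  have he0 : 0 < e := by rw [he]; positivity
  have he1 : e ≤ 1 / 16 := by
    rw [he]
    have : δ * r ≤ 1 := mul_le_one₀ hδ1 hr.le hr1
    linarith
  obtain ⟨X₁, hX₁3, hX₁⟩ := pnt e he0
  obtain ⟨X₂, hX₂3, hX₂⟩ := pc_window_upper e he0
  have ev : ∀ᶠ N : ℕ in atTop, ((X₁ + X₂ : ℕ) : ℝ) + 3 ≤ κ * N ∧ Real.log (2 / κ) / e ≤ Real.log (κ * N) ∧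
      8 / (δ * r) ≤ N ∧ (1 : ℝ) ≤ N := by
    have t0 : Tendsto (fun N : ℕ => (N : ℝ)) atTop atTop := tendsto_natCast_atTop_atTop
    have t1 : Tendsto (fun N : ℕ => κ * (N : ℝ)) atTop atTop := t0.const_mul_atTop hκ
    filter_upwards [t1.eventually_ge_atTop (((X₁ + X₂ : ℕ) : ℝ) + 3),
      (Real.tendsto_log_atTop.comp t1).eventually_ge_atTop (Real.log (2 / κ) / e),
      t0.eventually_ge_atTop (8 / (δ * r)), t0.eventually_ge_atTop 1] with N a b c d
    exact ⟨a, b, c, d⟩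
  obtain ⟨N₀, hN₀⟩ := ev.exists_forall_of_atTop
  refine ⟨N₀, fun N hN H hH1 hH2 n hn1 hn2 => ?_⟩
  obtain ⟨g1, g2, g3, g4⟩ := hN₀ N hN
  have hN0 : (0 : ℝ) < N := by linarith
  have hH0 : 0 < H := lt_of_lt_of_le (by positivity) hH1
  have hκN : 3 ≤ κ * N := by
    have : (0 : ℝ) ≤ ((X₁ + X₂ : ℕ) : ℝ) := Nat.cast_nonneg _
    linarith
  have hn3 : (3 : ℝ) ≤ n := hκN.trans hn1
  have hnX : X₁ + X₂ ≤ n := by
    have : ((X₁ + X₂ : ℕ) : ℝ) ≤ n := by linarith
    exact_mod_cast this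
  have hnN : (n : ℝ) ≤ N := by exact_mod_cast hn2
  have hn0 : (0 : ℝ) < n := by linarith
  have hlogn : 1 ≤ Real.log n := by
    rw [Real.le_log_iff_exp_le hn0]; linarith [Real.exp_one_lt_d9]
  obtain ⟨h, hh⟩ : ∃ h : ℕ, h = ⌊H⌋₊ := ⟨_, rfl⟩
  have hh1 : (h : ℝ) ≤ H := by rw [hh]; exact Nat.floor_le hH0.le
  have hh2 : H < h + 1 := by rw [hh]; exact Nat.lt_floor_add_one H
  rw [fR_eq H hH0.le, ← hh]
  have hup := hX₂ n h (by omega)
  -- the lower bound
  have hm := (hX₁ (n + h) (by omega)).1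
  have hn' := (hX₁ n (by omega)).2
  have hmr : ((n + h : ℕ) : ℝ) = n + h := by push_cast; ring
  have hm0 : (0 : ℝ) < ((n + h : ℕ) : ℝ) := by rw [hmr]; positivity
  have hlogm : Real.log ((n + h : ℕ) : ℝ) ≤ (1 + e) * Real.log n := by
    have h1 : ((n + h : ℕ) : ℝ) ≤ (2 / κ) * n := by
      rw [hmr, div_mul_eq_mul_div, le_div_iff₀ hκ]
      have h2 : κ * n ≤ κ * N := by gcongr
      have h3 : κ * h ≤ κ * N := by
        apply mul_le_mul_of_nonneg_left _ hκ.le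
        linarith
      nlinarith
    have h2 := Real.log_le_log hm0 h1
    rw [Real.log_mul (by positivity) hn0.ne'] at h2
    rw [div_le_iff₀ he0] at g2
    have h3 : Real.log (κ * N) ≤ Real.log n := Real.log_le_log (by linarith) hn1
    nlinarith
  have hlogm0 : 0 < Real.log ((n + h : ℕ) : ℝ) := by
    apply Real.log_pos
    rw [hmr]
    have : (0 : ℝ) ≤ h := Nat.cast_nonneg h
    linarith
  have hpcn : (Nat.primeCounting n : ℝ) * Real.log n ≤ (1 + e) * n := by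
    rwa [le_div_iff₀ (by linarith)] at hn'
  have hpcm : (1 - 2 * e) * ((n + h : ℕ) : ℝ) ≤ (Nat.primeCounting (n + h) : ℝ) * Real.log n := by
    rw [div_le_iff₀ hlogm0] at hm
    have h1 : (0 : ℝ) ≤ Nat.primeCounting (n + h) := Nat.cast_nonneg _
    have h2 : (1 - e) * ((n + h : ℕ) : ℝ) ≤ (1 + e) * ((Nat.primeCounting (n + h) : ℝ) * Real.log n) := by
      calc (1 - e) * ((n + h : ℕ) : ℝ) ≤ (Nat.primeCounting (n + h) : ℝ) * Real.log ((n + h : ℕ) : ℝ) := hm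
        _ ≤ (Nat.primeCounting (n + h) : ℝ) * ((1 + e) * Real.log n) := mul_le_mul_of_nonneg_left hlogm h1
        _ = _ := by ring
    have h3 : (1 + e) * ((1 - 2 * e) * ((n + h : ℕ) : ℝ)) ≤ (1 - e) * ((n + h : ℕ) : ℝ) := by
      have : (1 + e) * (1 - 2 * e) ≤ 1 - e := by nlinarith
      calc (1 + e) * ((1 - 2 * e) * ((n + h : ℕ) : ℝ)) = ((1 + e) * (1 - 2 * e)) * ((n + h : ℕ) : ℝ) := by ring
        _ ≤ _ := mul_le_mul_of_nonneg_right this hm0.le
    exact le_of_mul_le_mul_left (h3.trans h2) (by positivity)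
  have hlow : (h : ℝ) - 5 * e * N ≤ (pc n (n + h) : ℝ) * Real.log n := by
    rw [pc_eq_sub (by omega), sub_mul]
    have h1 : (1 - 2 * e) * ((n + h : ℕ) : ℝ) - (1 + e) * n ≥ h - 5 * e * N := by
      rw [hmr]
      have h2 : (h : ℝ) ≤ N := by linarith
      nlinarith
    linarith
  have hup' : (pc n (n + h) : ℝ) * Real.log n ≤ h + 3 * e * N := by
    refine hup.trans ?_
    have h2 : (h : ℝ) ≤ N := by linarith
    nlinarith
  have heN : 5 * e * N ≤ δ / 2 * H := by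
    rw [he]
    calc 5 * (δ * r / 16) * N = (5 / 16) * δ * (r * N) := by ring
      _ ≤ (5 / 16) * δ * H := by gcongr
      _ ≤ _ := by nlinarith [mul_pos hδ hH0]
  have hone : 1 ≤ δ / 4 * H := by
    rw [div_le_iff₀ (by positivity)] at g3
    nlinarith
  rw [abs_le]
  constructor
  · rw [le_sub_iff_add_le, le_div_iff₀ hH0]
    nlinarith
  · rw [sub_le_iff_le_add, div_le_iff₀ hH0]
    nlinarith

end Pool.Agent.X20.MF
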