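import Pool.Agent.X20.MF.Wins
import Pool.Agent.X20.MF.Long
import Pool.Agent.X20.MF.Katai
import Pool.Agent.X20.MF.Blocks

/-!
Orthogonality of the local densities of the primes to the functions which are multiplicative at the primes of
`(N ^ η, N ^ (ε / 2)]` (helper20).
-/

set_option autoImplicit false

namespace Pool.Agent.X20.MF
open Finset Filter

/-- the bound for one `N` and one `H`, from the block estimates -/
lemma assemble {N : ℕ} (hN : 1 ≤ N) (w T δ L W0 η : ℝ) (hw : 0 < w) (hδ : 0 ≤ δ) (J0 J1 : ℕ) (S : Finset ℕ)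
    (hSp : ∀ p ∈ S, p.Prime) (hS2 : S.card ^ 2 ≤ N) (hW0 : 1 ≤ W0) (hW : W0 ≤ ∑ p ∈ S, (1 : ℝ) / p)
    (hη : ∀ p ∈ S, (N : ℝ) ^ η ≤ p)
    (F : ℕ → ℝ) (hF : ∀ n ∈ Icc 1 N, |F n| ≤ L)
    (g u : ℕ → ℂ) (hg : ∀ n, ‖g n‖ ≤ 1) (hu : ∀ n, ‖u n‖ ≤ 1)
    (hmul : ∀ p ∈ S, ∀ m : ℕ, 1 ≤ m → ¬ p ∣ m → g (p * m) = u p * g m)
    (hblock : ∀ j k : ℕ, (∃ p ∈ S, idx w p = j) → ((j : ℝ) + k + 2) * w ≤ Real.log N →
      Real.log N - T ≤ ((j : ℝ) + k) * w → ∀ A' : Finset ℕ, A' ⊆ S.filter (fun p => idx w p = j) →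
      ∀ C' : Finset ℕ, C' ⊆ (Icc 1 N).filter (fun m => idx w m = k) →
      |∑ a ∈ A', ∑ c ∈ C', F (a * c)| ≤
        δ * ((S.filter (fun p => idx w p = j)).card * ((Icc 1 N).filter (fun m => idx w m = k)).card)) :
    ‖∑ n ∈ Icc 1 N, g n * (F n : ℂ)‖ ≤
      (2 * L / √W0 + 16 * δ + L * (Real.exp (2 * w - T) + 2 * w) + 2 * L / (N : ℝ) ^ η) * N + L * S.card := by
  have _ := J0
  have _ := J1
  obtain ⟨W, hWd⟩ : ∃ W : ℝ, W = ∑ p ∈ S, (1 : ℝ) / p := ⟨_, rfl⟩
  have hN0 : (0 : ℝ) < N := by exact_mod_cast hN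
  have hL0 : 0 ≤ L := (abs_nonneg _).trans (hF 1 (mem_Icc.2 ⟨le_rfl, hN⟩))
  have hW1 : 1 ≤ W := by rw [hWd]; exact hW0.trans hW
  have hWpos : 0 < W := by linarith
  have hb := blocks hN w T δ L hw hδ S (fun p hp => (hSp p hp).pos) F hF g u hg hu hblock
  have hk := katai S hSp hS2 (hW0.trans hW) F L hF g u hg hu hmul _ hb
  rw [← hWd] at hk
  have hNη : 0 < (N : ℝ) ^ η := Real.rpow_pos_of_pos hN0 η
  have hsq : ∑ p ∈ S, (1 : ℝ) / p ^ 2 ≤ W / (N : ℝ) ^ η := by
    rw [hWd, sum_div]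
    apply sum_le_sum
    intro p hp
    have hp0 : (0 : ℝ) < p := by exact_mod_cast (hSp p hp).pos
    rw [div_div, pow_two]
    apply div_le_div_of_nonneg_left zero_le_one (by positivity)
    exact mul_le_mul_of_nonneg_left (hη p hp) hp0.le
  have hsqrt : √W ≤ W / √W0 := by
    have h1 : 0 < √W0 := Real.sqrt_pos.2 (by linarith)
    rw [le_div_iff₀ h1, ← Real.sqrt_mul hWpos.le]
    have h2 : W * W0 ≤ W * W := by
      apply mul_le_mul_of_nonneg_left _ hWpos.le
      rw [hWd]; exact hW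
    have h3 := Real.sqrt_le_sqrt h2
    rwa [Real.sqrt_mul_self hWpos.le] at h3
  have h1 : 2 * L * N * √W ≤ W * ((2 * L / √W0) * N) := by
    calc 2 * L * N * √W ≤ 2 * L * N * (W / √W0) := mul_le_mul_of_nonneg_left hsqrt (by positivity)
      _ = _ := by ring
  have h2 : 2 * L * (N * ∑ p ∈ S, (1 : ℝ) / p ^ 2) ≤ W * ((2 * L / (N : ℝ) ^ η) * N) := by
    calc 2 * L * (N * ∑ p ∈ S, (1 : ℝ) / p ^ 2) ≤ 2 * L * (N * (W / (N : ℝ) ^ η)) := by gcongr
      _ = _ := by ring
  have h3 : L * (S.card : ℝ) ≤ W * (L * S.card) := by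
    have : 0 ≤ L * (S.card : ℝ) := by positivity
    nlinarith
  have h4 : W * ‖∑ n ∈ Icc 1 N, g n * (F n : ℂ)‖ ≤
      W * ((2 * L / √W0 + 16 * δ + L * (Real.exp (2 * w - T) + 2 * w) + 2 * L / (N : ℝ) ^ η) * N + L * S.card) := by
    refine hk.trans ?_
    have e : W * ((2 * L / √W0 + 16 * δ + L * (Real.exp (2 * w - T) + 2 * w) + 2 * L / (N : ℝ) ^ η) * N + L * S.card) =
        W * ((2 * L / √W0) * N) + (16 * δ * (N * W) + L * ((Real.exp (2 * w - T) + 2 * w) * (N * W))) +
        W * ((2 * L / (N : ℝ) ^ η) * N) + W * (L * S.card) := by ring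
    rw [e]
    have e2 : L * ((Real.exp (2 * w - T) + 2 * w) * (N * W) + S.card) =
        L * ((Real.exp (2 * w - T) + 2 * w) * (N * W)) + L * S.card := by ring
    rw [e2]
    linarith
  exact le_of_mul_le_mul_left h4 hWpos

theorem main (ε δ : ℝ) (hε : 0 < ε) (hε1 : ε ≤ 1) (hδ : 0 < δ) (hδ1 : δ ≤ 1) :
    ∃ η : ℝ, 0 < η ∧ η < ε / 2 ∧ ∃ N₀ : ℕ, ∀ N : ℕ, N₀ ≤ N → ∀ H : ℝ, (N : ℝ) ^ ε ≤ H → H ≤ N →
    ∀ g u : ℕ → ℂ, (∀ n, ‖g n‖ ≤ 1) → (∀ n, ‖u n‖ ≤ 1) →
    (∀ p : ℕ, p.Prime → (N : ℝ) ^ η ≤ p → (p : ℝ) ≤ (N : ℝ) ^ (ε / 2) → ∀ m : ℕ, 1 ≤ m → ¬ p ∣ m →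
      g (p * m) = u p * g m) →
    ‖∑ n ∈ Icc 1 N, g n * ((fR H n - 1 : ℝ) : ℂ)‖ ≤ δ * N := by
  classical
  obtain ⟨L, N₁, hL1, hN₁2, hbound⟩ := fR_bound ε hε
  have hL0 : 0 < L := by linarith
  obtain ⟨θ, hθ⟩ : ∃ θ : ℝ, θ = ε / 2 := ⟨_, rfl⟩
  have hθ0 : 0 < θ := by rw [hθ]; positivity
  -- the number of primes
  obtain ⟨W0, hW0⟩ : ∃ W0 : ℝ, W0 = (16 * L / δ) ^ 2 + 1 := ⟨_, rfl⟩
  have hW01 : 1 ≤ W0 := by rw [hW0]; have : 0 ≤ (16 * L / δ) ^ 2 := by positivity
                           linarith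
  obtain ⟨η, hη⟩ : ∃ η : ℝ, η = θ * (Real.exp (-(W0 + 2)) / 2) := ⟨_, rfl⟩
  have hη0 : 0 < η := by rw [hη]; have := Real.exp_pos (-(W0 + 2)); positivity
  have hηθ : η < θ / 2 := by
    have h1 : Real.exp (-(W0 + 2)) < 1 := by rw [Real.exp_lt_one_iff]; linarith
    rw [hη]
    have := mul_lt_mul_of_pos_left h1 hθ0
    linarith
  -- the block estimate
  obtain ⟨δb, hδb⟩ : ∃ δb : ℝ, δb = δ / 128 := ⟨_, rfl⟩
  have hδb0 : 0 < δb := by rw [hδb]; positivity
  have hδb1 : δb ≤ 1 / 10 := by rw [hδb]; linarith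
  obtain ⟨w₁, hw₁, hw₁1, hblockR⟩ := blockR δb hδb0 hδb1
  obtain ⟨w, hw⟩ : ∃ w : ℝ, w = min w₁ (δ / (16 * L)) := ⟨_, rfl⟩
  have hw0 : 0 < w := by rw [hw]; exact lt_min hw₁ (by positivity)
  have hww₁ : w ≤ w₁ := by rw [hw]; exact min_le_left _ _
  have hwL : w ≤ δ / (16 * L) := by rw [hw]; exact min_le_right _ _
  have hw1 : w ≤ 1 / 100 := hww₁.trans hw₁1
  obtain ⟨ρ0, hρ0⟩ : ∃ ρ0 : ℝ, ρ0 = δb / L := ⟨_, rfl⟩
  have hρ00 : 0 < ρ0 := by rw [hρ0]; positivity
  have hρ0L : L * ρ0 = δb := by rw [hρ0]; field_simp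
  obtain ⟨r, Y₀, hr0, hblk⟩ := hblockR w hw0 hww₁ (ρ0 * (w / 2)) η ε (3 / 4 * ε) (by positivity) hη0 (by positivity) (by linarith)
  obtain ⟨V₀, hV₀⟩ := prime_window hw0 (by linarith)
  obtain ⟨ℓ₀, hℓ₀⟩ := mertens_windows θ W0 hθ0 (by linarith) w hw0 (by linarith)
  obtain ⟨T, hT⟩ : ∃ T : ℝ, T = 2 * w + Real.log (8 * L / δ) := ⟨_, rfl⟩
  have hlogL : 0 ≤ Real.log (8 * L / δ) := by
    apply Real.log_nonneg
    rw [le_div_iff₀ hδ]; nlinarith
  have hT0 : 0 ≤ T := by rw [hT]; linarith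
  have hexpT : Real.exp (2 * w - T) = δ / (8 * L) := by
    rw [hT, show 2 * w - (2 * w + Real.log (8 * L / δ)) = -Real.log (8 * L / δ) by ring, Real.exp_neg,
      Real.exp_log (by positivity), inv_div]
  -- long windows
  obtain ⟨r', hr'⟩ : ∃ r' : ℝ, r' = min 1 (r * Real.exp (-T)) := ⟨_, rfl⟩
  have hr'0 : 0 < r' := by rw [hr']; exact lt_min one_pos (by positivity)
  have hr'1 : r' ≤ 1 := by rw [hr']; exact min_le_left _ _
  have hr'r : r' ≤ r * Real.exp (-T) := by rw [hr']; exact min_le_right _ _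
  obtain ⟨κ, hκ⟩ : ∃ κ : ℝ, κ = δ / (4 * L) := ⟨_, rfl⟩
  have hκ0 : 0 < κ := by rw [hκ]; positivity
  have hκ1 : κ ≤ 1 := by
    rw [hκ, div_le_one (by positivity)]; linarith
  have hκL : L * κ = δ / 4 := by rw [hκ]; field_simp
  obtain ⟨N₂, hlong⟩ := fR_long κ r' (δ / 4) hκ0 hκ1 hr'0 hr'1 (by positivity) (by linarith)
  -- eventual conditions
  have t0 : Tendsto (fun N : ℕ => (N : ℝ)) atTop atTop := tendsto_natCast_atTop_atTop
  have tl : Tendsto (fun N : ℕ => Real.log (N : ℝ)) atTop atTop := Real.tendsto_log_atTop.comp t0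
  have te : Tendsto (fun N : ℕ => (N : ℝ) ^ (1 / 4 : ℝ)) atTop atTop := (tendsto_rpow_atTop (by norm_num)).comp t0
  have tη : Tendsto (fun N : ℕ => (N : ℝ) ^ η) atTop atTop := (tendsto_rpow_atTop hη0).comp t0
  have hev : ∀ᶠ N : ℕ in atTop, ℓ₀ ≤ Real.log N ∧ Y₀ + T ≤ Real.log N ∧ (V₀ + 4 * w + 4 + T) / η ≤ Real.log N ∧
      (3 * T + 12 * w + 4 / w + 8) / ε ≤ Real.log N ∧ 3 * T + 12 * w + 4 / w + 8 ≤ Real.log N ∧
      16 * L / δ ≤ (N : ℝ) ^ (1 / 4 : ℝ) ∧ 16 * L / δ ≤ (N : ℝ) ^ η ∧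
      (4 * (T + 2 * w)) / ε ≤ Real.log N := by
    filter_upwards [tl.eventually_ge_atTop ℓ₀, tl.eventually_ge_atTop (Y₀ + T),
      tl.eventually_ge_atTop ((V₀ + 4 * w + 4 + T) / η), tl.eventually_ge_atTop ((3 * T + 12 * w + 4 / w + 8) / ε),
      tl.eventually_ge_atTop (3 * T + 12 * w + 4 / w + 8),
      te.eventually_ge_atTop (16 * L / δ), tη.eventually_ge_atTop (16 * L / δ),
      tl.eventually_ge_atTop ((4 * (T + 2 * w)) / ε)] with N a b c d e f h i
    exact ⟨a, b, c, d, e, f, h, i⟩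
  obtain ⟨N₃, hN₃⟩ := hev.exists_forall_of_atTop
  refine ⟨η, hη0, by rw [← hθ]; linarith, max (max N₁ N₂) N₃, fun N hN H hH1 hH2 g u hg hu hmul => ?_⟩
  have hNN₁ : N₁ ≤ N := ((le_max_left _ _).trans (le_max_left _ _)).trans hN
  have hNN₂ : N₂ ≤ N := ((le_max_right _ _).trans (le_max_left _ _)).trans hN
  obtain ⟨k1, k2, k3, k4, k5, k6, k7, k8⟩ := hN₃ N ((le_max_right _ _).trans hN)
  have hN2 : 2 ≤ N := hN₁2.trans hNN₁
  have hN1 : 1 ≤ N := by omega
  have hNr : (2 : ℝ) ≤ N := by exact_mod_cast hN2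
  have hN0 : (0 : ℝ) < N := by linarith
  have hF := hbound N hNN₁ H hH1
  have hH0 : 0 < H := lt_of_lt_of_le (Real.rpow_pos_of_pos hN0 ε) hH1
  rcases lt_or_ge (r' * N) H with hlongH | hshort
  · -- long windows
    have hlg := hlong N hNN₂ H hlongH.le hH2
    calc ‖∑ n ∈ Icc 1 N, g n * ((fR H n - 1 : ℝ) : ℂ)‖
        ≤ ∑ n ∈ Icc 1 N, ‖g n * ((fR H n - 1 : ℝ) : ℂ)‖ := norm_sum_le _ _
      _ ≤ ∑ n ∈ Icc 1 N, |fR H n - 1| := by
          apply sum_le_sum
          intro n _
          rw [norm_mul, Complex.norm_real, Real.norm_eq_abs]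
          calc ‖g n‖ * |fR H n - 1| ≤ 1 * |fR H n - 1| := mul_le_mul_of_nonneg_right (hg n) (abs_nonneg _)
            _ = _ := one_mul _
      _ = ∑ n ∈ (Icc 1 N).filter (fun n : ℕ => (n : ℝ) ≤ κ * N), |fR H n - 1| +
          ∑ n ∈ (Icc 1 N).filter (fun n : ℕ => ¬ (n : ℝ) ≤ κ * N), |fR H n - 1| :=
          (sum_filter_add_sum_filter_not _ _ _).symm
      _ ≤ ((κ * N) * L) + N * (δ / 4) := by
          apply add_le_add
          · refine (sum_le_sum fun n hn => hF n (mem_of_mem_filter n hn)).trans ?_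
            rw [sum_const, nsmul_eq_mul]
            apply mul_le_mul_of_nonneg_right _ hL0.le
            have h1 := count_le 1 one_pos (κ * N) (by positivity) N
            simpa using h1
          · refine (sum_le_sum (g := fun _ => δ / 4) fun n hn => ?_).trans ?_
            · rw [mem_filter, not_le, mem_Icc] at hn
              exact hlg n hn.2.le hn.1.2
            · rw [sum_const, nsmul_eq_mul]
              apply mul_le_mul_of_nonneg_right _ (by positivity)
              have h1 : ((Icc 1 N).filter (fun n : ℕ => ¬ (n : ℝ) ≤ κ * N)).card ≤ (Icc 1 N).card := card_filter_le _ _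
              rw [Nat.card_Icc, Nat.add_sub_cancel] at h1
              exact_mod_cast h1
      _ = (L * κ) * N + N * (δ / 4) := by ring
      _ ≤ δ * N := by rw [hκL]; nlinarith
  · -- short windows
    obtain ⟨ℓ, hℓ⟩ : ∃ ℓ : ℝ, ℓ = Real.log N := ⟨_, rfl⟩
    rw [← hℓ] at k1 k2 k3 k4 k5 k8
    have hℓ8 : 8 ≤ ℓ := by
      have : 0 ≤ 4 / w := by positivity
      linarith
    have hℓ0 : 0 < ℓ := by linarith
    rw [div_le_iff₀ hη0] at k3
    rw [div_le_iff₀ hε] at k4 k8
    have h4w : 0 < 4 / w := by positivity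
    obtain ⟨J0, hJ0⟩ : ∃ J0 : ℕ, J0 = ⌈η * ℓ / w⌉₊ := ⟨_, rfl⟩
    obtain ⟨J1, hJ1⟩ : ∃ J1 : ℕ, J1 = ⌊θ * ℓ / w⌋₊ := ⟨_, rfl⟩
    have hJ0a : η * ℓ ≤ J0 * w := by
      have := Nat.le_ceil (η * ℓ / w)
      rw [div_le_iff₀ hw0, ← hJ0] at this
      exact this
    have hJ0b : (J0 : ℝ) * w ≤ η * ℓ + w := by
      have h1 := Nat.ceil_lt_add_one (a := η * ℓ / w) (by positivity)
      rw [← hJ0] at h1
      have h2 := mul_lt_mul_of_pos_right h1 hw0
      have h3 : (η * ℓ / w + 1) * w = η * ℓ + w := by field_simp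
      linarith
    have hJ1a : (J1 : ℝ) * w ≤ θ * ℓ := by
      have := Nat.floor_le (a := θ * ℓ / w) (by positivity)
      rw [le_div_iff₀ hw0, ← hJ1] at this
      exact this
    have hJ1b : θ * ℓ - w ≤ J1 * w := by
      have h1 := Nat.lt_floor_add_one (θ * ℓ / w)
      rw [← hJ1] at h1
      have h2 := mul_lt_mul_of_pos_right h1 hw0
      have h3 : θ * ℓ / w * w = θ * ℓ := by field_simp
      rw [h3] at h2
      linarith
    obtain ⟨S, hS⟩ : ∃ S : Finset ℕ, S = (Icc 1 N).filter (fun p : ℕ => p.Prime ∧ (J0 : ℝ) * w ≤ Real.log p ∧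
      Real.log p < J1 * w) := ⟨_, rfl⟩
    have hθℓ : θ * ℓ ≤ ℓ / 2 := by
      rw [hθ]; nlinarith
    have hSmem : ∀ p : ℕ, p ∈ S ↔ p.Prime ∧ (J0 : ℝ) * w ≤ Real.log p ∧ Real.log p < J1 * w := by
      intro p
      rw [hS, mem_filter, mem_Icc]
      constructor
      · rintro ⟨_, h⟩; exact h
      · intro h
        refine ⟨⟨h.1.one_lt.le, ?_⟩, h⟩
        have hp0 : (0 : ℝ) < p := by exact_mod_cast h.1.pos
        have h1 : Real.log p < Real.log N := by
          rw [← hℓ]
          linarith [h.2.2]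
        rw [Real.log_lt_log_iff hp0 hN0] at h1
        exact_mod_cast h1.le
    have hSub : ∀ p ∈ S, (p : ℝ) < (N : ℝ) ^ θ := by
      intro p hp
      rw [hSmem] at hp
      have hp0 : (0 : ℝ) < p := by exact_mod_cast hp.1.pos
      rw [← Real.log_lt_log_iff hp0 (by positivity), Real.log_rpow hN0, ← hℓ]
      linarith [hp.2.2]
    have hSlb : ∀ p ∈ S, (N : ℝ) ^ η ≤ p := by
      intro p hp
      rw [hSmem] at hp
      have hp0 : (0 : ℝ) < p := by exact_mod_cast hp.1.pos
      rw [← Real.log_le_log_iff (by positivity) hp0, Real.log_rpow hN0, ← hℓ]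
      linarith [hp.2.1]
    have hScard : (S.card : ℝ) ≤ (N : ℝ) ^ θ := by
      have h1 : S ⊆ Icc 1 ⌊(N : ℝ) ^ θ⌋₊ := by
        intro p hp
        rw [mem_Icc]
        exact ⟨((hSmem p).1 hp).1.one_lt.le, Nat.le_floor (hSub p hp).le⟩
      have h2 := card_le_card h1
      rw [Nat.card_Icc, Nat.add_sub_cancel] at h2
      have h3 : (S.card : ℝ) ≤ (⌊(N : ℝ) ^ θ⌋₊ : ℝ) := by exact_mod_cast h2
      exact h3.trans (Nat.floor_le (by positivity))
    have hNθ : (N : ℝ) ^ θ ≤ (N : ℝ) ^ (1 / 2 : ℝ) :=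
      Real.rpow_le_rpow_of_exponent_le (by linarith) (by rw [hθ]; linarith)
    have hNhalf : (N : ℝ) ^ (1 / 2 : ℝ) * (N : ℝ) ^ (1 / 2 : ℝ) = N := by
      rw [← Real.rpow_add hN0]; norm_num
    have hN14 : (N : ℝ) ^ (1 / 4 : ℝ) * (N : ℝ) ^ (1 / 2 : ℝ) ≤ N := by
      rw [← Real.rpow_add hN0]
      calc (N : ℝ) ^ ((1 / 4 : ℝ) + 1 / 2) ≤ (N : ℝ) ^ (1 : ℝ) :=
            Real.rpow_le_rpow_of_exponent_le (by linarith) (by norm_num)
        _ = N := Real.rpow_one _
    have hS2 : S.card ^ 2 ≤ N := by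
      have h1 : (S.card : ℝ) ^ 2 ≤ N := by
        calc (S.card : ℝ) ^ 2 = S.card * S.card := pow_two _
          _ ≤ (N : ℝ) ^ (1 / 2 : ℝ) * (N : ℝ) ^ (1 / 2 : ℝ) :=
            mul_le_mul (hScard.trans hNθ) (hScard.trans hNθ) (Nat.cast_nonneg _) (by positivity)
          _ = N := hNhalf
      exact_mod_cast h1
    have hW := hℓ₀ ℓ k1 J0 J1 (by rw [← hη]; exact hJ0b) (by rw [← hη]; exact hJ0a) hJ1b S
      (fun p h1 h2 h3 => (hSmem p).2 ⟨h1, h2, h3⟩)
    have hmain := assemble hN1 w T δb L W0 η hw0 hδb0.le J0 J1 S (fun p hp => ((hSmem p).1 hp).1) hS2 hW01 hW hSlb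
      (fun n => fR H n - 1) hF g u hg hu
      (by
        intro p hp m hm hpm
        exact hmul p ((hSmem p).1 hp).1 (hSlb p hp) (by rw [← hθ]; exact (hSub p hp).le) m hm hpm)
      (by
        intro j k hj hjk1 hjk2 A' hA' C' hC'
        rw [← hℓ] at hjk1 hjk2
        obtain ⟨p₀, hp₀, hp₀j⟩ := hj
        rw [hSmem] at hp₀
        -- the range of `j`
        have hjlow : η * ℓ - w ≤ j * w := by
          have h1 := idx_high hw0 (n := p₀)
          rw [hp₀j] at h1
          nlinarith [hp₀.2.1]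
        have hjnat : J0 ≤ j ∧ j < J1 := by
          have h1 := idx_high hw0 (n := p₀)
          have h2 := idx_low hw0 (n := p₀)
          rw [hp₀j] at h1 h2
          constructor
          · have h3 : (J0 : ℝ) * w < ((j : ℝ) + 1) * w := lt_of_le_of_lt hp₀.2.1 h1
            have h4 := lt_of_mul_lt_mul_right h3 hw0.le
            have h5 : J0 < j + 1 := by exact_mod_cast h4
            omega
          · have h3 : (j : ℝ) * w < (J1 : ℝ) * w := lt_of_le_of_lt h2 hp₀.2.2
            have h4 := lt_of_mul_lt_mul_right h3 hw0.le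
            exact_mod_cast h4
        obtain ⟨V, hV⟩ : ∃ V : ℝ, V = j * w := ⟨_, rfl⟩
        obtain ⟨U, hU⟩ : ∃ U : ℝ, U = k * w := ⟨_, rfl⟩
        have hVlow : η * ℓ ≤ V := by
          rw [hV]
          have : (J0 : ℝ) ≤ j := by exact_mod_cast hjnat.1
          have h2 := mul_le_mul_of_nonneg_right this hw0.le
          linarith
        have hVhigh : V + w ≤ θ * ℓ := by
          rw [hV]
          have : (j : ℝ) + 1 ≤ J1 := by exact_mod_cast hjnat.2
          have h2 := mul_le_mul_of_nonneg_right this hw0.le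
          linarith
        have hVU1 : V + U + 2 * w ≤ ℓ := by rw [hV, hU]; linarith
        have hVU2 : ℓ - T ≤ V + U := by rw [hV, hU]; linarith
        have hA'mem : ∀ a ∈ A', a.Prime ∧ V ≤ Real.log a ∧ Real.log a < V + w := by
          intro a ha
          have h1 := hA' ha
          rw [mem_filter, hSmem] at h1
          have h2 := idx_low hw0 (n := a)
          have h3 := idx_high hw0 (n := a)
          rw [h1.2] at h2 h3
          refine ⟨h1.1.1, by rw [hV]; exact h2, by rw [hV]; linarith⟩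
        have hC'mem : ∀ c ∈ C', 1 ≤ c ∧ U ≤ Real.log c ∧ Real.log c < U + w := by
          intro c hc
          have h1 := hC' hc
          rw [mem_filter, mem_Icc] at h1
          have h2 := idx_low hw0 (n := c)
          have h3 := idx_high hw0 (n := c)
          rw [h1.2] at h2 h3
          refine ⟨h1.1.1, by rw [hU]; exact h2, by rw [hU]; linarith⟩
        have hAj : w / 2 * (Real.exp V / V) ≤ ((S.filter (fun p => idx w p = j)).card : ℝ) := by
          apply hV₀ V (by nlinarith)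
          intro p hp h1 h2
          rw [mem_filter, hSmem]
          refine ⟨⟨hp, ?_, ?_⟩, ?_⟩
          · have : (J0 : ℝ) ≤ j := by exact_mod_cast hjnat.1
            have h3 := mul_le_mul_of_nonneg_right this hw0.le
            rw [hV] at h1
            linarith
          · have : (j : ℝ) + 1 ≤ J1 := by exact_mod_cast hjnat.2
            have h3 := mul_le_mul_of_nonneg_right this hw0.le
            rw [hV] at h2
            linarith
          · unfold idx
            rw [Nat.floor_eq_iff (div_nonneg (Real.log_natCast_nonneg p) hw0.le), le_div_iff₀ hw0, div_lt_iff₀ hw0]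
            rw [hV] at h1 h2
            constructor <;> linarith
        have hUbig : 2 / w ≤ U := by
          have h42 : 4 / w = 2 * (2 / w) := by ring
          linarith
        have hCk : w / 2 * Real.exp U ≤ (((Icc 1 N).filter (fun m => idx w m = k)).card : ℝ) := by
          apply int_window hw0
          · have h1 := Real.add_one_le_exp U
            linarith
          · intro c hc h1 h2
            rw [mem_filter, mem_Icc]
            refine ⟨⟨hc, ?_⟩, ?_⟩
            · have hc0 : (0 : ℝ) < c := by exact_mod_cast hc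
              have h3 : Real.log c < Real.log N := by
                rw [← hℓ]
                have : 0 ≤ V := by
                  have : 0 ≤ η * ℓ := by positivity
                  linarith
                linarith
              rw [Real.log_lt_log_iff hc0 hN0] at h3
              exact_mod_cast h3.le
            · unfold idx
              rw [Nat.floor_eq_iff (div_nonneg (Real.log_natCast_nonneg c) hw0.le), le_div_iff₀ hw0, div_lt_iff₀ hw0]
              rw [hU] at h1 h2
              constructor <;> linarith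
        have hA'c : (A'.card : ℝ) ≤ ((S.filter (fun p => idx w p = j)).card : ℝ) := by exact_mod_cast card_le_card hA'
        have hC'c : (C'.card : ℝ) ≤ (((Icc 1 N).filter (fun m => idx w m = k)).card : ℝ) := by
          exact_mod_cast card_le_card hC'
        obtain ⟨X, hX⟩ : ∃ X : ℝ, X = ((S.filter (fun p => idx w p = j)).card : ℝ) := ⟨_, rfl⟩
        obtain ⟨Z, hZ⟩ : ∃ Z : ℝ, Z = (((Icc 1 N).filter (fun m => idx w m = k)).card : ℝ) := ⟨_, rfl⟩
        rw [← hX] at hAj hA'c ⊢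
        rw [← hZ] at hCk hC'c ⊢
        have hX0 : 0 ≤ X := by rw [hX]; exact Nat.cast_nonneg _
        have hZ0 : 0 ≤ Z := by rw [hZ]; exact Nat.cast_nonneg _
        have hA'0 : (0 : ℝ) ≤ A'.card := Nat.cast_nonneg _
        have hC'0 : (0 : ℝ) ≤ C'.card := Nat.cast_nonneg _
        -- the trivial bound
        have htriv : |∑ a ∈ A', ∑ c ∈ C', (fR H (a * c) - 1)| ≤ L * (A'.card * C'.card) := by
          calc |∑ a ∈ A', ∑ c ∈ C', (fR H (a * c) - 1)| ≤ ∑ a ∈ A', |∑ c ∈ C', (fR H (a * c) - 1)| :=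
                abs_sum_le_sum_abs _ _
            _ ≤ ∑ a ∈ A', ∑ c ∈ C', |fR H (a * c) - 1| := sum_le_sum fun a _ => abs_sum_le_sum_abs _ _
            _ ≤ ∑ _a ∈ A', ∑ _c ∈ C', L := by
                apply sum_le_sum
                intro a ha
                apply sum_le_sum
                intro c hc
                apply hF
                rw [mem_Icc]
                obtain ⟨a1, a2, a3⟩ := hA'mem a ha
                obtain ⟨c1, c2, c3⟩ := hC'mem c hc
                refine ⟨Nat.mul_pos a1.pos c1, ?_⟩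
                have ha0 : (0 : ℝ) < a := by exact_mod_cast a1.pos
                have hc0 : (0 : ℝ) < c := by exact_mod_cast c1
                have h3 : Real.log ((a * c : ℕ) : ℝ) < Real.log N := by
                  rw [Nat.cast_mul, Real.log_mul ha0.ne' hc0.ne', ← hℓ]
                  linarith
                rw [Real.log_lt_log_iff (by push_cast; positivity) hN0] at h3
                exact_mod_cast h3.le
            _ = _ := by
                rw [sum_const, sum_const, nsmul_eq_mul, nsmul_eq_mul]; ring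
        rcases lt_or_ge (A'.card : ℝ) (ρ0 * X) with hAs | hAb
        · refine htriv.trans ?_
          calc L * ((A'.card : ℝ) * C'.card) ≤ L * ((ρ0 * X) * Z) := by
                apply mul_le_mul_of_nonneg_left _ hL0.le
                exact mul_le_mul hAs.le hC'c hC'0 (by positivity)
            _ = (L * ρ0) * (X * Z) := by ring
            _ = _ := by rw [hρ0L]
        rcases lt_or_ge (C'.card : ℝ) (ρ0 * Z) with hCs | hCb
        · refine htriv.trans ?_
          calc L * ((A'.card : ℝ) * C'.card) ≤ L * (X * (ρ0 * Z)) := by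
                apply mul_le_mul_of_nonneg_left _ hL0.le
                exact mul_le_mul hA'c hCs.le hC'0 hX0
            _ = (L * ρ0) * (X * Z) := by ring
            _ = _ := by rw [hρ0L]
        · have hres := hblk (V + U) (by linarith) V U rfl
            (by
              have : η * (V + U) ≤ η * ℓ := by
                apply mul_le_mul_of_nonneg_left _ hη0.le
                linarith
              linarith)
            (by
              -- `V ≤ θ ℓ ≤ (3/4) ε (ℓ - T)`
              rw [hθ] at hVhigh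
              nlinarith)
            H
            (by
              calc Real.exp (ε * (V + U)) ≤ Real.exp (ε * ℓ) := by
                    rw [Real.exp_le_exp]
                    apply mul_le_mul_of_nonneg_left _ hε.le
                    linarith
                _ = (N : ℝ) ^ ε := by rw [Real.rpow_def_of_pos hN0, ← hℓ, mul_comm]
                _ ≤ H := hH1)
            (by
              calc H ≤ r' * N := hshort
                _ ≤ (r * Real.exp (-T)) * N := mul_le_mul_of_nonneg_right hr'r hN0.le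
                _ = r * (Real.exp (-T) * Real.exp ℓ) := by rw [hℓ, Real.exp_log hN0]; ring
                _ = r * Real.exp (ℓ - T) := by rw [← Real.exp_add]; congr 2; ring
                _ ≤ r * Real.exp (V + U) := by
                    apply mul_le_mul_of_nonneg_left _ hr0.le
                    exact Real.exp_le_exp.2 hVU2)
            A' hA'mem
            (by
              calc ρ0 * (w / 2) * (Real.exp V / V) = ρ0 * (w / 2 * (Real.exp V / V)) := by ring
                _ ≤ ρ0 * X := mul_le_mul_of_nonneg_left hAj hρ00.le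
                _ ≤ _ := hAb)
            C' hC'mem
            (by
              calc ρ0 * (w / 2) * Real.exp U = ρ0 * (w / 2 * Real.exp U) := by ring
                _ ≤ ρ0 * Z := mul_le_mul_of_nonneg_left hCk hρ00.le
                _ ≤ _ := hCb)
          refine hres.trans ?_
          apply mul_le_mul_of_nonneg_left _ hδb0.le
          exact mul_le_mul hA'c hC'c hC'0 hX0)
    refine hmain.trans ?_
    -- the final numerical estimate
    have f1 : 2 * L / √W0 ≤ δ / 8 := by
      have h1 : 16 * L / δ ≤ √W0 := by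
        apply Real.le_sqrt_of_sq_le
        rw [hW0]; linarith
      have h2 : 0 < 16 * L / δ := by positivity
      calc 2 * L / √W0 ≤ 2 * L / (16 * L / δ) := div_le_div_of_nonneg_left (by positivity) h2 h1
        _ = δ / 8 := by field_simp; norm_num
    have f2 : 16 * δb = δ / 8 := by rw [hδb]; ring
    have f3 : L * (Real.exp (2 * w - T) + 2 * w) ≤ δ / 8 + δ / 8 := by
      rw [hexpT, mul_add]
      apply add_le_add
      · apply le_of_eq; field_simp
      · calc L * (2 * w) ≤ L * (2 * (δ / (16 * L))) := by gcongr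
          _ = δ / 8 := by field_simp; norm_num
    have f4 : 2 * L / (N : ℝ) ^ η ≤ δ / 8 := by
      have h2 : 0 < 16 * L / δ := by positivity
      calc 2 * L / (N : ℝ) ^ η ≤ 2 * L / (16 * L / δ) := div_le_div_of_nonneg_left (by positivity) h2 k7
        _ = δ / 8 := by field_simp; norm_num
    have f5 : L * S.card ≤ δ / 8 * N := by
      have h1 : L ≤ δ / 16 * (N : ℝ) ^ (1 / 4 : ℝ) := by
        rw [div_le_iff₀ hδ] at k6
        linarith
      have h2 : 0 ≤ (N : ℝ) ^ (1 / 2 : ℝ) := by positivity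
      calc L * S.card ≤ (δ / 16 * (N : ℝ) ^ (1 / 4 : ℝ)) * (N : ℝ) ^ (1 / 2 : ℝ) :=
            mul_le_mul h1 (hScard.trans hNθ) (Nat.cast_nonneg _) (by positivity)
        _ = δ / 16 * ((N : ℝ) ^ (1 / 4 : ℝ) * (N : ℝ) ^ (1 / 2 : ℝ)) := by ring
        _ ≤ δ / 16 * N := mul_le_mul_of_nonneg_left hN14 (by positivity)
        _ ≤ δ / 8 * N := by nlinarith
    have f6 : (2 * L / √W0 + 16 * δb + L * (Real.exp (2 * w - T) + 2 * w) + 2 * L / (N : ℝ) ^ η) * N ≤
        (5 / 8 * δ) * N := by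
      apply mul_le_mul_of_nonneg_right _ hN0.le
      linarith
    nlinarith

end Pool.Agent.X20.MF
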