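import Pool.Agent.X20.MF.BlockR
import Pool.Agent.H357R2.SI.Common
import Pool.Agent.Helper923.HMertens
import Pool.Agent.Helper923.PPS.BT

/-! Primes and integers in logarithmic windows (helper20). -/

set_option autoImplicit false

namespace Pool.Agent.X20.MF
open Finset Filter

lemma int_window {w : ℝ} (hw : 0 < w) {U : ℝ} (hU : 2 / w ≤ Real.exp U) (D : Finset ℕ)
    (hD : ∀ c : ℕ, 1 ≤ c → U ≤ Real.log c → Real.log c < U + w → c ∈ D) : w / 2 * Real.exp U ≤ D.card := by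
  have heU := Real.exp_pos U
  have hsub : Ico ⌈Real.exp U⌉₊ ⌈Real.exp (U + w)⌉₊ ⊆ D := by
    intro c hc
    rw [mem_Ico] at hc
    have h1 : Real.exp U ≤ c := Nat.ceil_le.1 hc.1
    have h2 : (c : ℝ) < Real.exp (U + w) := Nat.lt_ceil.1 hc.2
    have hc0 : (0 : ℝ) < c := heU.trans_le h1
    refine hD c (by exact_mod_cast hc0) ?_ ?_
    · rw [Real.le_log_iff_exp_le hc0]; exact h1
    · rw [Real.log_lt_iff_lt_exp hc0]; exact h2
  have h1 := card_le_card hsub
  rw [Nat.card_Ico] at h1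
  have h2 : ⌈Real.exp U⌉₊ ≤ ⌈Real.exp (U + w)⌉₊ := Nat.ceil_mono (Real.exp_le_exp.2 (by linarith))
  have h3 : (⌈Real.exp (U + w)⌉₊ : ℝ) - ⌈Real.exp U⌉₊ ≤ D.card := by
    rw [← Nat.cast_sub h2]; exact_mod_cast h1
  have h4 : Real.exp (U + w) ≤ ⌈Real.exp (U + w)⌉₊ := Nat.le_ceil _
  have h5 := Nat.ceil_lt_add_one heU.le
  have h6 : Real.exp U * (1 + w) ≤ Real.exp (U + w) := by
    rw [Real.exp_add]
    apply mul_le_mul_of_nonneg_left _ heU.le
    linarith [Real.add_one_le_exp w]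
  have h7 : 2 ≤ w * Real.exp U := by
    rw [div_le_iff₀ hw] at hU
    linarith
  nlinarith

lemma prime_window {w : ℝ} (hw : 0 < w) (hw1 : w ≤ 1 / 2) : ∃ V₀ : ℝ, ∀ V : ℝ, V₀ ≤ V → ∀ D : Finset ℕ,
    (∀ p : ℕ, p.Prime → V ≤ Real.log p → Real.log p < V + w → p ∈ D) →
    w / 2 * (Real.exp V / V) ≤ D.card := by
  obtain ⟨X₀, hX3, hX⟩ := Pool.Agent.H357R2.SI.pc_window_lower (w / 20) (by positivity) (by linarith)
  have hev : ∀ᶠ V : ℝ in atTop, (X₀ : ℝ) + 1 ≤ Real.exp V ∧ 16 / w ≤ Real.exp V ∧ 1 ≤ V := by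
    filter_upwards [Real.tendsto_exp_atTop.eventually_ge_atTop ((X₀ : ℝ) + 1),
      Real.tendsto_exp_atTop.eventually_ge_atTop (16 / w), eventually_ge_atTop 1] with V a b c
    exact ⟨a, b, c⟩
  obtain ⟨V₀, hV₀⟩ := Filter.eventually_atTop.1 hev
  refine ⟨V₀, fun V hV D hD => ?_⟩
  obtain ⟨g1, g2, g3⟩ := hV₀ V hV
  have heV := Real.exp_pos V
  have hV0 : 0 < V := by linarith
  obtain ⟨n, hn⟩ : ∃ n : ℕ, n = ⌊Real.exp V⌋₊ := ⟨_, rfl⟩
  obtain ⟨m, hm⟩ : ∃ m : ℕ, m = ⌊Real.exp (V + w)⌋₊ := ⟨_, rfl⟩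
  have hn1 : (n : ℝ) ≤ Real.exp V := by rw [hn]; exact Nat.floor_le heV.le
  have hn2 : Real.exp V < n + 1 := by rw [hn]; exact Nat.lt_floor_add_one _
  have hm1 : (m : ℝ) ≤ Real.exp (V + w) := by rw [hm]; exact Nat.floor_le (Real.exp_pos _).le
  have hm2 : Real.exp (V + w) < m + 1 := by rw [hm]; exact Nat.lt_floor_add_one _
  have hX0n : X₀ ≤ n := by
    have : (X₀ : ℝ) < n + 1 := by linarith
    have h : X₀ < n + 1 := by exact_mod_cast this
    omega
  have h6 : Real.exp V * (1 + w) ≤ Real.exp (V + w) := by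
    rw [Real.exp_add]
    apply mul_le_mul_of_nonneg_left _ heV.le
    linarith [Real.add_one_le_exp w]
  have h7 : Real.exp (V + w) ≤ Real.exp V * (1 + 2 * w) := by
    rw [Real.exp_add]
    apply mul_le_mul_of_nonneg_left _ heV.le
    have h3 := Real.abs_exp_sub_one_le (x := w) (by rw [abs_of_pos hw]; linarith)
    rw [abs_of_pos hw] at h3
    linarith [(abs_le.1 h3).2]
  have hwe : 16 ≤ w * Real.exp V := by
    rw [div_le_iff₀ hw] at g2
    linarith
  have hmn : n + 2 ≤ m := by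
    have : (n : ℝ) + 2 < m + 1 := by nlinarith
    have h : n + 2 < m + 1 := by exact_mod_cast this
    omega
  obtain ⟨h, hh⟩ : ∃ h : ℕ, m = n + h + 1 := ⟨m - n - 1, by omega⟩
  have hhr : (h : ℝ) = m - n - 1 := by
    have : (m : ℝ) = n + h + 1 := by exact_mod_cast hh
    linarith
  have hhn : h ≤ n := by
    have h1 : (h : ℝ) < n + 1 := by
      rw [hhr]
      nlinarith
    have h2 : h < n + 1 := by exact_mod_cast h1
    omega
  have hlow := hX n h hX0n hhn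
  have hsub : ((Ioc n (n + h)).filter Nat.Prime) ⊆ D := by
    intro p hp
    rw [mem_filter, mem_Ioc] at hp
    obtain ⟨⟨p1, p2⟩, p3⟩ := hp
    have hp0 : (0 : ℝ) < p := by exact_mod_cast p3.pos
    refine hD p p3 ?_ ?_
    · rw [Real.le_log_iff_exp_le hp0]
      have : ((n + 1 : ℕ) : ℝ) ≤ p := by exact_mod_cast p1
      push_cast at this
      linarith
    · rw [Real.log_lt_iff_lt_exp hp0]
      have : ((p + 1 : ℕ) : ℝ) ≤ m := by
        have : p + 1 ≤ m := by omega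
        exact_mod_cast this
      push_cast at this
      linarith
  have hcard : ((Pool.Agent.H357R2.SI.pc n (n + h) : ℕ) : ℝ) ≤ D.card := by
    unfold Pool.Agent.H357R2.SI.pc
    exact_mod_cast card_le_card hsub
  have hn0 : (0 : ℝ) < n := by
    have : 0 < n := by omega
    exact_mod_cast this
  have hlogn : Real.log n ≤ V := by
    have := Real.log_le_log hn0 hn1
    rwa [Real.log_exp] at this
  have hlogn0 : 0 ≤ Real.log (n : ℝ) := Real.log_natCast_nonneg n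
  have hD0 : (0 : ℝ) ≤ D.card := Nat.cast_nonneg _
  have hfin : w / 2 * Real.exp V ≤ D.card * V := by
    calc w / 2 * Real.exp V ≤ (h : ℝ) - 5 * (w / 20) * n := by
          rw [hhr]; nlinarith
      _ ≤ (Pool.Agent.H357R2.SI.pc n (n + h) : ℝ) * Real.log n := hlow
      _ ≤ D.card * V := mul_le_mul hcard hlogn hlogn0 hD0
  rw [show w / 2 * (Real.exp V / V) = (w / 2 * Real.exp V) / V by ring, div_le_iff₀ hV0]
  exact hfin

/-- `Σ 1 / p` over windows -/
lemma mertens_windows (θ W0 : ℝ) (hθ : 0 < θ) (hW0 : 0 ≤ W0) (w : ℝ) (hw : 0 < w) (hw1 : w ≤ 1 / 2) :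
    ∃ ℓ₀ : ℝ, ∀ ℓ : ℝ, ℓ₀ ≤ ℓ → ∀ J0 J1 : ℕ,
      (J0 : ℝ) * w ≤ θ * (Real.exp (-(W0 + 2)) / 2) * ℓ + w → θ * (Real.exp (-(W0 + 2)) / 2) * ℓ ≤ J0 * w →
      θ * ℓ - w ≤ J1 * w → ∀ S : Finset ℕ,
      (∀ p : ℕ, p.Prime → (J0 : ℝ) * w ≤ Real.log p → Real.log p < J1 * w → p ∈ S) → W0 ≤ ∑ p ∈ S, (1 : ℝ) / p := by
  obtain ⟨C, hC, hM⟩ := Pool.Agent.Helper923.HMertens.mertens_ratio
  obtain ⟨η, hη⟩ : ∃ η : ℝ, η = θ * (Real.exp (-(W0 + 2)) / 2) := ⟨_, rfl⟩
  have hη0 : 0 < η := by rw [hη]; have := Real.exp_pos (-(W0 + 2)); positivity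
  rw [← hη]
  have hev : ∀ᶠ ℓ : ℝ in atTop, 4 * (w + 2) + C + 4 ≤ η * ℓ ∧ 4 * (w + 2) + C + 4 ≤ θ * ℓ ∧
      8 ≤ Real.exp (θ * ℓ - w) := by
    have t : Tendsto (fun ℓ : ℝ => Real.exp (θ * ℓ - w)) atTop atTop := by
      apply Real.tendsto_exp_atTop.comp
      exact tendsto_atTop_add_const_right _ _ (tendsto_id.const_mul_atTop hθ)
    filter_upwards [(tendsto_id.const_mul_atTop hη0).eventually_ge_atTop (4 * (w + 2) + C + 4),
      (tendsto_id.const_mul_atTop hθ).eventually_ge_atTop (4 * (w + 2) + C + 4),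
      t.eventually_ge_atTop 8] with ℓ a b c
    exact ⟨a, b, c⟩
  obtain ⟨ℓ₀, hℓ₀⟩ := Filter.eventually_atTop.1 hev
  refine ⟨ℓ₀, fun ℓ hℓ J0 J1 h1 h2 h3 S hS => ?_⟩
  obtain ⟨g1, g2, g3⟩ := hℓ₀ ℓ hℓ
  obtain ⟨a, ha⟩ : ∃ a : ℕ, a = ⌊Real.exp (J0 * w)⌋₊ := ⟨_, rfl⟩
  obtain ⟨b, hb⟩ : ∃ b : ℕ, b = ⌊Real.exp (J1 * w)⌋₊ - 1 := ⟨_, rfl⟩
  have hJ0w : 4 ≤ (J0 : ℝ) * w := by linarith
  have hE0 : (J0 : ℝ) * w + 1 ≤ Real.exp (J0 * w) := Real.add_one_le_exp _
  have ha1 : (a : ℝ) ≤ Real.exp (J0 * w) := by rw [ha]; exact Nat.floor_le (Real.exp_pos _).le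
  have ha2 : Real.exp (J0 * w) < a + 1 := by rw [ha]; exact Nat.lt_floor_add_one _
  have ha4 : 4 ≤ a := by
    have : (4 : ℝ) < a + 1 := by linarith
    have h : 4 < a + 1 := by exact_mod_cast this
    omega
  have hE1 : 8 ≤ Real.exp (J1 * w) := g3.trans (Real.exp_le_exp.2 h3)
  have hf8 : 8 ≤ ⌊Real.exp (J1 * w)⌋₊ := Nat.le_floor (by exact_mod_cast hE1)
  have hb1 : (b : ℝ) + 1 ≤ Real.exp (J1 * w) := by
    have h : b + 1 = ⌊Real.exp (J1 * w)⌋₊ := by omega
    have h' : (b : ℝ) + 1 = (⌊Real.exp (J1 * w)⌋₊ : ℝ) := by exact_mod_cast h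
    rw [h']
    exact Nat.floor_le (Real.exp_pos _).le
  have hb2 : Real.exp (J1 * w) - 2 < b := by
    have h : b + 1 = ⌊Real.exp (J1 * w)⌋₊ := by omega
    have h' : (b : ℝ) + 1 = (⌊Real.exp (J1 * w)⌋₊ : ℝ) := by exact_mod_cast h
    have h4 := Nat.lt_floor_add_one (Real.exp (J1 * w))
    linarith
  -- logs
  have ha0 : (0 : ℝ) < a := by
    have : 0 < a := by omega
    exact_mod_cast this
  have hla : Real.log a ≤ J0 * w := by
    have := Real.log_le_log ha0 ha1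
    rwa [Real.log_exp] at this
  have hla1 : 1 ≤ Real.log a := by
    rw [Real.le_log_iff_exp_le ha0]
    have h4 : (4 : ℝ) ≤ a := by exact_mod_cast ha4
    linarith [Real.exp_one_lt_d9]
  have hlaC : C + 1 ≤ Real.log a := by
    have h4 : Real.exp (J0 * w - 1) ≤ a := by
      have h5 : Real.exp (J0 * w - 1) * Real.exp 1 = Real.exp (J0 * w) := by
        rw [← Real.exp_add]; congr 1; ring
      have h6 := Real.exp_one_gt_d9
      have h7 := Real.exp_pos (J0 * w - 1)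
      nlinarith
    have h5 : (J0 : ℝ) * w - 1 ≤ Real.log a := by
      rw [Real.le_log_iff_exp_le ha0]; exact h4
    linarith
  have hlb : (J1 : ℝ) * w - 1 ≤ Real.log b := by
    have hb0 : (0 : ℝ) < b := by linarith
    rw [Real.le_log_iff_exp_le hb0]
    have h5 : Real.exp (J1 * w - 1) * Real.exp 1 = Real.exp (J1 * w) := by
      rw [← Real.exp_add]; congr 1; ring
    have h6 := Real.exp_one_gt_d9
    have h7 := Real.exp_pos (J1 * w - 1)
    nlinarith
  have hratio : Real.exp (W0 + 2) ≤ Real.log b / Real.log a := by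
    rw [le_div_iff₀ (by linarith)]
    have h4 : Real.exp (W0 + 2) * η = θ / 2 := by
      rw [hη]
      have : Real.exp (W0 + 2) * Real.exp (-(W0 + 2)) = 1 := by rw [← Real.exp_add]; simp
      calc Real.exp (W0 + 2) * (θ * (Real.exp (-(W0 + 2)) / 2)) =
          (Real.exp (W0 + 2) * Real.exp (-(W0 + 2))) * θ / 2 := by ring
        _ = _ := by rw [this]; ring
    have hexp := Real.exp_pos (W0 + 2)
    -- `η ℓ` dominates `w`
    have h5 : w ≤ η * ℓ / 4 := by linarith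
    calc Real.exp (W0 + 2) * Real.log a ≤ Real.exp (W0 + 2) * (η * ℓ + η * ℓ / 4) := by
          apply mul_le_mul_of_nonneg_left _ hexp.le
          linarith
      _ = (Real.exp (W0 + 2) * η) * ℓ * (5 / 4) := by ring
      _ = θ * ℓ * (5 / 8) := by rw [h4]; ring
      _ ≤ J1 * w - 1 := by linarith
      _ ≤ _ := hlb
  have hab : a ≤ b := by
    by_contra hcon
    push Not at hcon
    have h4 : Real.log b ≤ Real.log a := by
      rcases Nat.eq_zero_or_pos b with h0 | h0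
      · rw [h0]; simp; linarith
      · exact Real.log_le_log (by exact_mod_cast h0) (by exact_mod_cast hcon.le)
    have h5 : Real.log b / Real.log a ≤ 1 := by
      rw [div_le_one (by linarith)]; exact h4
    have h6 : 1 < Real.exp (W0 + 2) := Real.one_lt_exp_iff.2 (by linarith)
    linarith
  have hM' := hM a b (by omega) hab
  have h10 : C / Real.log a ≤ 1 := by
    rw [div_le_one (by linarith)]; linarith
  have h11 := (abs_le.1 hM').1
  have h12 : W0 + 2 ≤ Real.log (Real.log b / Real.log a) := by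
    rw [Real.le_log_iff_exp_le (lt_of_lt_of_le (Real.exp_pos _) hratio)]
    exact hratio
  have h13 : ∑ p ∈ (Finset.Ioc a b).filter Nat.Prime, (1 : ℝ) / p ≤ ∑ p ∈ S, (1 : ℝ) / p := by
    apply sum_le_sum_of_subset_of_nonneg
    · intro p hp
      rw [mem_filter, mem_Ioc] at hp
      obtain ⟨⟨p1, p2⟩, p3⟩ := hp
      have hp0 : (0 : ℝ) < p := by exact_mod_cast p3.pos
      refine hS p p3 ?_ ?_
      · rw [Real.le_log_iff_exp_le hp0]
        have : ((a + 1 : ℕ) : ℝ) ≤ p := by exact_mod_cast p1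
        push_cast at this
        linarith
      · rw [Real.log_lt_iff_lt_exp hp0]
        have : (p : ℝ) ≤ b := by exact_mod_cast p2
        linarith
    · intro p _ _
      positivity
  linarith

end Pool.Agent.X20.MF
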